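import Pool.Agent.Q41.SU.Stm5

set_option autoImplicit false

/-!
# Project SU, job N11: selection of a nondegenerate family
-/

namespace Pool.Agent.Q210.SU.N11

open Finset Polynomial
open Pool.Agent.Q41.SU

universe u

/-- the row of the point `x` -/
noncomputable def rw' {k E : Type u} [Field k] [Field E] [Algebra k E] (D : Derivation k E E) {a b : ℕ}
    (h : E ≃ₐ[k] E) (x : E) (c : II a b) : PowerSeries E :=
  PowerSeries.C x ^ (c.1 : ℕ) * tay D (h x) ^ (c.2 : ℕ)

/-- the minor -/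
noncomputable def mn {k E : Type u} [Field k] [Field E] [Algebra k E] (D : Derivation k E E) {a b : ℕ}
    (h : E ≃ₐ[k] E) {l : ℕ} (y : Fin l → E) (T : Fin l → II a b) : PowerSeries E :=
  Matrix.det (Matrix.of fun i j => rw' D h (y i) (T j))

section

variable {k E : Type u} [Field k] [Field E] [Algebra k E] {D : Derivation k E E} {a b : ℕ}

/-- the minimal order of the minors -/
theorem exists_min (h : E ≃ₐ[k] E) {l : ℕ} (y : Fin l → E) (M : ℕ)
    (hM : ∃ T : Fin l → II a b, Function.Injective T ∧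
      ¬ (PowerSeries.X : PowerSeries E) ^ (M + 1) ∣ mn D h y T) :
    ∃ m ≤ M, ∃ T : Fin l → II a b, Function.Injective T ∧
      (∃ w : PowerSeries E, mn D h y T = PowerSeries.X ^ m * w ∧ PowerSeries.constantCoeff w ≠ 0) ∧
      ∀ T' : Fin l → II a b, Function.Injective T' → (PowerSeries.X : PowerSeries E) ^ m ∣ mn D h y T' := by
  classical
  have hex : ∃ m : ℕ, ∃ T : Fin l → II a b, Function.Injective T ∧
      ¬ (PowerSeries.X : PowerSeries E) ^ (m + 1) ∣ mn D h y T := ⟨M, hM⟩
  obtain ⟨T, hT, hT2⟩ := Nat.find_spec hex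
  have hmin := fun m' => Nat.find_min hex (m := m')
  have hle : Nat.find hex ≤ M := Nat.find_le hM
  generalize Nat.find hex = m at hT2 hmin hle
  have hall : ∀ T' : Fin l → II a b, Function.Injective T' →
      (PowerSeries.X : PowerSeries E) ^ m ∣ mn D h y T' := by
    intro T' hT'
    rcases Nat.eq_zero_or_pos m with h0 | h0
    · rw [h0, pow_zero]
      exact one_dvd _
    · have h1 := hmin (m - 1) (by omega)
      push Not at h1
      have h2 := h1 T' hT'
      rwa [Nat.sub_add_cancel h0] at h2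
  obtain ⟨w, hw⟩ := hall T hT
  refine ⟨m, hle, T, hT, ⟨w, hw, fun h0 => hT2 ?_⟩, hall⟩
  rw [← PowerSeries.X_dvd_iff] at h0
  obtain ⟨w', hw'⟩ := h0
  exact ⟨w', by rw [hw, hw', pow_succ, mul_assoc]⟩

/-- the coefficients for the new row -/
theorem exists_coeff (h : E ≃ₐ[k] E) {l : ℕ} (hl : l < (a + 1) * (b + 1)) (y : Fin l → E) (M : ℕ)
    (hM : ∃ T : Fin l → II a b, Function.Injective T ∧
      ¬ (PowerSeries.X : PowerSeries E) ^ (M + 1) ∣ mn D h y T) :
    ∃ m ≤ M, ∃ T' : Fin (l + 1) → II a b, Function.Injective T' ∧ ∃ c : II a b → PowerSeries E,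
      (∃ i, PowerSeries.constantCoeff (c i) ≠ 0) ∧ ∀ x : E, mn D h (Fin.snoc y x : Fin (l + 1) → E) T' =
        PowerSeries.X ^ m * ∑ i, c i * PowerSeries.C x ^ (i.1 : ℕ) * tay D (h x) ^ (i.2 : ℕ) := by
  classical
  obtain ⟨m, hm, T, hT, ⟨w, hw, hw0⟩, hall⟩ := exists_min h y M hM
  -- a new column
  obtain ⟨c₀, hc₀⟩ : ∃ c₀ : II a b, c₀ ∉ Set.range T := by
    by_contra hcon
    push Not at hcon
    have h1 : Function.Surjective T := fun i => hcon i
    have h2 := Fintype.card_le_of_surjective T h1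
    rw [Fintype.card_fin, Fintype.card_prod, Fintype.card_fin, Fintype.card_fin] at h2
    omega
  let T' : Fin (l + 1) → II a b := Fin.snoc T c₀
  have hT'c : ∀ j : Fin l, T' j.castSucc = T j := fun j => Fin.snoc_castSucc (α := fun _ => II a b) _ _ _
  have hT'l : T' (Fin.last l) = c₀ := Fin.snoc_last (α := fun _ => II a b) _ _
  have hT' : Function.Injective T' := by
    intro i j
    refine Fin.lastCases ?_ (fun i => ?_) i <;> refine Fin.lastCases ?_ (fun j => ?_) j
    · intro _
      rfl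
    · intro hij
      rw [hT'l, hT'c] at hij
      exact absurd ⟨j, hij.symm⟩ hc₀
    · intro hij
      rw [hT'l, hT'c] at hij
      exact absurd ⟨i, hij⟩ hc₀
    · intro hij
      rw [hT'c, hT'c] at hij
      rw [hT hij]
  have hT2 : ∀ j : Fin (l + 1), Function.Injective (T' ∘ j.succAbove) := fun j =>
    hT'.comp (Fin.succAbove_right_injective)
  choose W hW using fun j : Fin (l + 1) => hall _ (hT2 j)
  have hlast : T' ∘ (Fin.last l).succAbove = T := by
    funext j
    rw [Function.comp_apply, Fin.succAbove_last, hT'c]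
  have hWl : PowerSeries.constantCoeff (W (Fin.last l)) ≠ 0 := by
    have h1 := hW (Fin.last l)
    rw [hlast, hw] at h1
    have h2 : w = W (Fin.last l) := mul_left_cancel₀ (pow_ne_zero _ PowerSeries.X_ne_zero) h1
    rw [← h2]
    exact hw0
  let c : II a b → PowerSeries E := fun i =>
    ∑ j : Fin (l + 1), if T' j = i then (-1) ^ (l + (j : ℕ)) * W j else 0
  refine ⟨m, hm, T', hT', c, ⟨c₀, ?_⟩, fun x => ?_⟩
  · have h1 : c c₀ = (-1) ^ (l + l) * W (Fin.last l) := by
      change (∑ j : Fin (l + 1), if T' j = c₀ then (-1) ^ (l + (j : ℕ)) * W j else 0) = _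
      rw [Finset.sum_eq_single (Fin.last l)]
      · rw [if_pos hT'l, Fin.val_last]
      · intro j _ hj
        rw [if_neg]
        intro h2
        exact hj (hT' (h2.trans hT'l.symm))
      · intro h2
        exact absurd (mem_univ _) h2
    rw [h1, ← two_mul, pow_mul, neg_one_sq, one_pow, one_mul]
    exact hWl
  · have h1 : mn D h (Fin.snoc y x : Fin (l + 1) → E) T' =
        ∑ j : Fin (l + 1), (-1) ^ (l + (j : ℕ)) * rw' D h x (T' j) *
          mn D h y (T' ∘ j.succAbove) := by
      unfold mn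
      rw [Matrix.det_succ_row _ (Fin.last l)]
      refine Finset.sum_congr rfl fun j _ => ?_
      rw [Fin.val_last]
      congr 1
      · congr 1
        rw [Matrix.of_apply]
        congr 1
        exact Fin.snoc_last (α := fun _ => E) _ _
      · congr 1
        ext i j'
        rw [Matrix.submatrix_apply, Matrix.of_apply, Matrix.of_apply, Fin.succAbove_last]
        congr 1
        congr 1
        exact Fin.snoc_castSucc (α := fun _ => E) _ _ _
    rw [h1]
    have h2 : ∀ j : Fin (l + 1), (-1) ^ (l + (j : ℕ)) * rw' D h x (T' j) *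
        mn D h y (T' ∘ j.succAbove) =
        PowerSeries.X ^ m * ((-1) ^ (l + (j : ℕ)) * W j * rw' D h x (T' j)) := by
      intro j
      rw [hW j]
      ring
    rw [Finset.sum_congr rfl fun j _ => h2 j, ← Finset.mul_sum]
    congr 1
    have h3 : ∀ i : II a b, c i * PowerSeries.C x ^ (i.1 : ℕ) * tay D (h x) ^ (i.2 : ℕ) =
        ∑ j : Fin (l + 1), if T' j = i then (-1) ^ (l + (j : ℕ)) * W j * rw' D h x (T' j) else 0 := by
      intro i
      change (∑ j : Fin (l + 1), if T' j = i then (-1) ^ (l + (j : ℕ)) * W j else 0) * _ * _ = _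
      rw [mul_assoc, Finset.sum_mul]
      refine Finset.sum_congr rfl fun j _ => ?_
      split_ifs with h4
      · rw [← h4]
        rfl
      · rw [zero_mul]
    rw [Finset.sum_congr rfl fun i _ => h3 i, Finset.sum_comm]
    refine Finset.sum_congr rfl fun j _ => ?_
    rw [Finset.sum_ite_eq, if_pos (mem_univ _)]

/-- one of the points is outside of all the small sets -/
theorem exists_out {ι : Type*} (Γ : Finset ι) (P : Finset E) (hP : 0 < P.card) (S : ι → Set E)
    {ν : ℕ} (hν : Γ.card ≤ ν) (hS : ∀ h ∈ Γ, ((S h ∩ P).ncard : ℝ) ≤ 1 / (ν + 1) * P.card) :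
    ∃ x ∈ P, ∀ h ∈ Γ, x ∉ S h := by
  classical
  by_contra hcon
  push Not at hcon
  have h1 : (P : Set E) ⊆ ⋃ h ∈ Γ, (S h ∩ P) := by
    intro x hx
    obtain ⟨h, hh, hx2⟩ := hcon x hx
    exact Set.mem_biUnion hh ⟨hx2, hx⟩
  have h2 : (P.card : ℝ) ≤ ∑ h ∈ Γ, ((S h ∩ P).ncard : ℝ) := by
    have h3 : (P : Set E).ncard ≤ ∑ h ∈ Γ, (S h ∩ P).ncard := by
      refine (Set.ncard_le_ncard h1 ?_).trans (Finset.set_ncard_biUnion_le _ _)
      exact Set.Finite.biUnion Γ.finite_toSet fun h _ => P.finite_toSet.inter_of_right _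
    rw [Set.ncard_coe_finset] at h3
    exact_mod_cast h3
  have h4 : ∑ h ∈ Γ, ((S h ∩ P).ncard : ℝ) ≤ ν * (1 / (ν + 1) * P.card) := by
    refine (Finset.sum_le_sum hS).trans ?_
    rw [Finset.sum_const, nsmul_eq_mul]
    refine mul_le_mul_of_nonneg_right (by exact_mod_cast hν) (by positivity)
  have h5 : (0 : ℝ) < P.card := by exact_mod_cast hP
  have h6 : (ν : ℝ) * (1 / (ν + 1) * P.card) < P.card := by
    have h7 : (0 : ℝ) < ν + 1 := by positivity
    have h8 : (ν : ℝ) * (1 / (ν + 1) * P.card) = (ν / (ν + 1)) * P.card := by ring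
    rw [h8]
    have h9 : (ν : ℝ) / (ν + 1) < 1 := by
      rw [div_lt_one h7]
      linarith
    nlinarith
  linarith

end

theorem n11 (h10 : S_nd2.{u}) : S_sel.{u} := by
  intro d a b ν
  obtain ⟨N₀, hN₀⟩ := h10 d a b (1 / ((ν + 1 : ℕ) + 1)) (by positivity)
  refine ⟨max N₀ 1, ?_⟩
  intro k E _ _ _ _ _ D p q P hH hcard Γ₀ hΓ₀ hΓD₀
  classical
  -- add the identity
  obtain ⟨Γ, hΓ, hΓD, hΓ₀Γ, hΓne⟩ : ∃ Γ : Finset (E ≃ₐ[k] E), Γ.card ≤ ν + 1 ∧
      (∀ h ∈ Γ, ∀ x, D (h x) = h (D x)) ∧ Γ₀ ⊆ Γ ∧ Γ.Nonempty := by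
    refine ⟨insert AlgEquiv.refl Γ₀, (Finset.card_insert_le _ _).trans (by omega), ?_,
      Finset.subset_insert _ _, ⟨AlgEquiv.refl, Finset.mem_insert_self _ _⟩⟩
    intro h hh x
    rcases Finset.mem_insert.1 hh with h1 | h1
    · rw [h1]
      rfl
    · exact hΓD₀ h h1 x
  have hP0 : 0 < P.card := lt_of_lt_of_le one_pos ((le_max_right _ _).trans hcard)
  have hPN : N₀ ≤ P.card := (le_max_left _ _).trans hcard
  have key : ∀ l : ℕ, l ≤ (a + 1) * (b + 1) → ∃ y : Fin l → E, (∀ i, y i ∈ P) ∧ ∀ h ∈ Γ,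
      ∃ T : Fin l → II a b, Function.Injective T ∧
        ¬ (PowerSeries.X : PowerSeries E) ^ (b * l + 1) ∣ mn D h y T := by
    intro l
    induction l with
    | zero =>
      intro _
      refine ⟨fun i => i.elim0, fun i => i.elim0, fun h _ => ⟨fun i => i.elim0, fun i => i.elim0, ?_⟩⟩
      unfold mn
      rw [Matrix.det_isEmpty, mul_zero, zero_add, pow_one, PowerSeries.X_dvd_iff, map_one]
      exact one_ne_zero
    | succ l ih =>
      intro hl
      obtain ⟨y, hy, hyT⟩ := ih (by omega)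
      have h1 : ∀ h : Γ, ∃ m ≤ b * l, ∃ T' : Fin (l + 1) → II a b, Function.Injective T' ∧
          ∃ c : II a b → PowerSeries E, (∃ i, PowerSeries.constantCoeff (c i) ≠ 0) ∧
          ∀ x : E, mn D h.1 (Fin.snoc y x : Fin (l + 1) → E) T' =
            PowerSeries.X ^ m *
              ∑ i, c i * PowerSeries.C x ^ (i.1 : ℕ) * tay D (h.1 x) ^ (i.2 : ℕ) :=
        fun h => exists_coeff h.1 (by omega) y (b * l) (hyT h.1 h.2)
      choose m hm T' hT' c hc hx using h1
      obtain ⟨x, hxP, hxS⟩ := exists_out (univ : Finset Γ) P hP0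
        (fun h => {x : E | (PowerSeries.X : PowerSeries E) ^ (b + 1) ∣
          ∑ i, c h i * PowerSeries.C x ^ (i.1 : ℕ) * tay D (h.1 x) ^ (i.2 : ℕ)}) (ν := ν + 1)
        (by rw [Finset.card_univ, Fintype.card_coe]; exact hΓ) (fun h _ => by
          have h2 := hN₀ k E D p q P hH hPN h.1 (hΓD h.1 h.2) (c h) (hc h)
          refine le_trans (le_of_eq ?_) h2
          congr 2
          ext z
          constructor
          · rintro ⟨z1, z2⟩
            exact ⟨z2, z1⟩
          · rintro ⟨z1, z2⟩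
            exact ⟨z2, z1⟩)
      refine ⟨Fin.snoc y x, ?_, fun h hh => ⟨T' ⟨h, hh⟩, hT' ⟨h, hh⟩, ?_⟩⟩
      · intro i
        refine Fin.lastCases ?_ (fun i => ?_) i
        · rw [Fin.snoc_last (α := fun _ => E)]
          exact hxP
        · rw [Fin.snoc_castSucc (α := fun _ => E)]
          exact hy i
      · intro hdvd
        have h2 := hx ⟨h, hh⟩ x
        have h3 : (PowerSeries.X : PowerSeries E) ^ (m ⟨h, hh⟩ + (b + 1)) ∣
            mn D h (Fin.snoc y x : Fin (l + 1) → E) (T' ⟨h, hh⟩) := by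
          refine dvd_trans (pow_dvd_pow _ ?_) hdvd
          have := hm ⟨h, hh⟩
          have h4 : b * (l + 1) = b * l + b := by ring
          omega
        rw [h2, pow_add] at h3
        have h5 := (mul_dvd_mul_iff_left (pow_ne_zero _ PowerSeries.X_ne_zero)).1 h3
        exact hxS ⟨h, hh⟩ (mem_univ _) h5
  obtain ⟨y, hy, hyT⟩ := key ((a + 1) * (b + 1)) le_rfl
  have hcardI : Fintype.card (II a b) = (a + 1) * (b + 1) := by
    rw [Fintype.card_prod, Fintype.card_fin, Fintype.card_fin]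
  let eI : Fin ((a + 1) * (b + 1)) ≃ II a b := (Fintype.equivFinOfCardEq hcardI).symm
  have hdet : ∀ h ∈ Γ, ¬ (PowerSeries.X : PowerSeries E) ^ (b * ((a + 1) * (b + 1)) + 1) ∣
      bd a b (fun l => PowerSeries.C (y (eI.symm l))) (fun l => tay D (h (y (eI.symm l)))) := by
    intro h hh hdvd
    obtain ⟨T, hT, hT2⟩ := hyT h hh
    apply hT2
    have hTb : Function.Bijective T := by
      rw [Fintype.bijective_iff_injective_and_card]
      exact ⟨hT, by rw [Fintype.card_fin, hcardI]⟩
    let eT : Fin ((a + 1) * (b + 1)) ≃ II a b := Equiv.ofBijective T hTb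
    let M : Matrix (II a b) (II a b) (PowerSeries E) := Matrix.of fun l c : II a b =>
      PowerSeries.C (y (eI.symm l)) ^ (c.1 : ℕ) * tay D (h (y (eI.symm l))) ^ (c.2 : ℕ)
    have h1 : mn D h y T = ((M.submatrix eI eI).submatrix id (eT.trans eI.symm)).det := by
      unfold mn
      congr 1
      ext i j
      simp only [Matrix.submatrix_apply, Matrix.of_apply, id, Equiv.trans_apply,
        Equiv.apply_symm_apply, M, Equiv.symm_apply_apply]
      rfl
    rw [h1, Matrix.det_permute', Matrix.det_submatrix_equiv_self]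
    exact Dvd.dvd.mul_left hdvd _
  refine ⟨fun l => y (eI.symm l), ?_, fun l => hy _, fun h hh => hdet h (hΓ₀Γ hh)⟩
  obtain ⟨h, hh⟩ := hΓne
  intro l l' hll
  by_contra hne
  apply hdet h hh
  have h1 : bd a b (fun l => PowerSeries.C (y (eI.symm l))) (fun l => tay D (h (y (eI.symm l)))) = 0 := by
    unfold bd
    refine Matrix.det_zero_of_row_eq hne ?_
    funext c
    simp only [Matrix.of_apply]
    have h2 : y (eI.symm l) = y (eI.symm l') := hll
    rw [h2]
  rw [h1]
  exact dvd_zero _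

end Pool.Agent.Q210.SU.N11
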