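import Pool.Agent.Q24.SU.Pb

/-!
# SU-N4: proportional pull-backs
-/

set_option autoImplicit false
set_option linter.unusedVariables false
set_option linter.unusedSectionVars false

namespace Pool.Agent.Q210.SU.N4

open Finset Polynomial Pool.Agent.Q41.SU Pool.Agent.Q24.SU

universe u

section

variable {E : Type u} [Field E]

/-- the inclusion of the polynomials in the rational functions -/
noncomputable abbrev io (E : Type u) [Field E] : E[X] →+* RatFunc E :=
  algebraMap E[X] (RatFunc E)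

theorem io_inj : Function.Injective (io E) := IsFractionRing.injective E[X] (RatFunc E)

theorem io_ne {P : E[X]} (h : P ≠ 0) : io E P ≠ 0 := by
  intro h1
  exact h (io_inj (by rw [h1, map_zero]))

theorem io_C (e : E) : io E (C e) = algebraMap E (RatFunc E) e := by
  rw [IsScalarTower.algebraMap_apply E E[X] (RatFunc E)]
  rfl

theorem io_hcm {H : ℕ} {A P Q : E[X]} (hA : A.natDegree ≤ H) (hQ : Q ≠ 0) :
    io E (hcm H A P Q) = io E Q ^ H * aeval (rf P Q) A := by
  have hq : io E Q ≠ 0 := io_ne hQ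
  unfold hcm
  rw [map_sum, aeval_eq_sum_range' (Nat.lt_succ_of_le hA), mul_sum]
  refine sum_congr rfl fun i hi => ?_
  have hi' : i ≤ H := Nat.lt_succ_iff.1 (mem_range.1 hi)
  rw [map_mul, map_mul, map_pow, map_pow, Algebra.smul_def, io_C]
  obtain ⟨j, rfl⟩ : ∃ j, H = j + i := ⟨H - i, by omega⟩
  have h1 : rf P Q = io E P / io E Q := rfl
  rw [Nat.add_sub_cancel, pow_add, h1, div_pow]
  field_simp

/-- `σ` extends the evaluation at `φ` -/
def Sg (φ : RatFunc E) (σ : RatFunc E →+* RatFunc E) : Prop :=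
  ∀ p : E[X], σ (io E p) = aeval φ p

theorem exists_sg {P Q : E[X]} (hco : IsCoprime P Q) (hQ : Q ≠ 0)
    (hdeg : 1 ≤ max P.natDegree Q.natDegree) : ∃ σ, Sg (rf P Q) σ := by
  have hinj : Function.Injective ((aeval (rf P Q) : E[X] →ₐ[E] RatFunc E) : E[X] →+* RatFunc E) := by
    rw [injective_iff_map_eq_zero]
    intro A hA
    by_contra hA0
    have h1 := io_hcm (P := P) (H := A.natDegree) (A := A) le_rfl hQ
    have h2 : aeval (rf P Q) A = 0 := hA
    rw [h2, mul_zero] at h1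
    exact io_ne (hcm_ne le_rfl hA0 hco hQ hdeg) h1
  refine ⟨IsFractionRing.lift hinj, fun p => ?_⟩
  exact IsFractionRing.lift_algebraMap hinj p

theorem sg_alg {φ : RatFunc E} {σ : RatFunc E →+* RatFunc E} (h : Sg φ σ) (e : E) :
    σ (algebraMap E (RatFunc E) e) = algebraMap E (RatFunc E) e := by
  rw [← io_C, h, aeval_C, io_C]

theorem sg_aeval {φ : RatFunc E} {σ : RatFunc E →+* RatFunc E} (h : Sg φ σ) (ψ : RatFunc E)
    (p : E[X]) : σ (aeval ψ p) = aeval (σ ψ) p := by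
  have h1 : σ.comp (algebraMap E (RatFunc E)) = algebraMap E (RatFunc E) :=
    RingHom.ext fun e => sg_alg h e
  rw [aeval_def, hom_eval₂, h1, ← aeval_def]

theorem exists_frac (x : RatFunc E) : ∃ p q : E[X], q ≠ 0 ∧ x * io E q = io E p := by
  obtain ⟨p, q, hq, rfl⟩ := IsFractionRing.div_surjective (A := E[X]) x
  have hq' : q ≠ 0 := nonZeroDivisors.ne_zero hq
  exact ⟨p, q, hq', div_mul_cancel₀ _ (io_ne hq')⟩

theorem sg_comp {φ ψ χ : RatFunc E} {σ τ ρ : RatFunc E →+* RatFunc E} (h1 : Sg φ σ) (h2 : Sg ψ τ)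
    (h3 : Sg χ ρ) (h : χ = σ ψ) (x : RatFunc E) : ρ x = σ (τ x) := by
  have h4 : ∀ p, ρ (io E p) = σ (τ (io E p)) := by
    intro p
    rw [h3, h2, sg_aeval h1, h]
  obtain ⟨p, q, hq, hx⟩ := exists_frac x
  have h5 : ρ x * ρ (io E q) = σ (τ x) * ρ (io E q) := by
    rw [← map_mul, hx, h4, h4 q, ← map_mul, ← map_mul, hx]
  exact mul_right_cancel₀ ((map_ne_zero ρ).2 (io_ne hq)) h5

end

section

variable {k E : Type u} [Field k] [Field E] [Algebra k E] (D : Derivation k E E)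

theorem cD_coeff (p : E[X]) (i : ℕ) : (cD D p).coeff i = D (p.coeff i) := by
  unfold cD
  rw [finsetSum_coeff]
  simp only [coeff_C_mul, coeff_X_pow, mul_ite, mul_one, mul_zero]
  rw [Finset.sum_ite_eq (range (p.natDegree + 1)) i]
  split_ifs with h
  · rfl
  · rw [mem_range, not_lt] at h
    rw [coeff_eq_zero_of_natDegree_lt (by omega), map_zero]

theorem cD_add (p q : E[X]) : cD D (p + q) = cD D p + cD D q := by
  ext i
  rw [cD_coeff, coeff_add, coeff_add, map_add, cD_coeff, cD_coeff]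

theorem cD_mul (p q : E[X]) : cD D (p * q) = cD D p * q + p * cD D q := by
  ext i
  rw [cD_coeff, coeff_add, coeff_mul, coeff_mul, coeff_mul, map_sum, ← sum_add_distrib]
  refine sum_congr rfl fun x _ => ?_
  rw [D.leibniz, smul_eq_mul, smul_eq_mul, cD_coeff, cD_coeff]
  ring

theorem cD_C (e : E) : cD D (C e) = C (D e) := by
  ext i
  rw [cD_coeff, coeff_C, coeff_C]
  split_ifs
  · rfl
  · exact map_zero _

theorem cD_X : cD D (X : E[X]) = 0 := by
  ext i
  rw [cD_coeff, coeff_X, coeff_zero]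
  split_ifs
  · exact D.map_one_eq_zero
  · exact map_zero _

/-- the derivation of the polynomials -/
noncomputable def dl (p : E[X]) : (RatFunc E)[X] :=
  C (io E (cD D p)) + C (io E (derivative p)) * X

theorem dl_add (p q : E[X]) : dl D (p + q) = dl D p + dl D q := by
  unfold dl
  rw [cD_add, derivative_add, map_add, map_add, map_add, map_add]
  ring

theorem dl_mul (p q : E[X]) : dl D (p * q) = C (io E p) * dl D q + C (io E q) * dl D p := by
  unfold dl
  rw [cD_mul, derivative_mul, map_add, map_add, map_add, map_add, map_mul, map_mul, map_mul,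
    map_mul, map_mul, map_mul, map_mul, map_mul]
  ring

theorem exists_delta : ∃ Δ : RatFunc E → (RatFunc E)[X], (∀ x y, Δ (x + y) = Δ x + Δ y) ∧
    (∀ x y, Δ (x * y) = C x * Δ y + C y * Δ x) ∧ ∀ p, Δ (io E p) = dl D p := by
  let f : E[X] →+* DualNumber (RatFunc E)[X] :=
    { toFun := fun p => TrivSqZeroExt.inl (C (io E p)) + TrivSqZeroExt.inr (dl D p)
      map_one' := by
        have h1 : dl D (1 : E[X]) = 0 := by
          unfold dl
          rw [derivative_one, map_zero, map_zero, zero_mul, add_zero, ← C_1, cD_C,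
            D.map_one_eq_zero, map_zero, map_zero, map_zero]
        rw [h1]
        simp
      map_mul' := by
        intro p q
        rw [dl_mul]
        ext
        · simp
        · simp
          ring
      map_zero' := by
        have h1 : dl D (0 : E[X]) = 0 := by
          have := dl_add D (0 : E[X]) 0
          rw [add_zero] at this
          simpa using this
        rw [h1]
        simp
      map_add' := by
        intro p q
        rw [dl_add]
        ext
        · simp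
        · simp }
  have hf1 : ∀ p, (f p).fst = C (io E p) := by
    intro p
    simp [f]
  have hf2 : ∀ p, (f p).snd = dl D p := by
    intro p
    simp [f]
  have hu : ∀ s : nonZeroDivisors E[X], IsUnit (f s) := by
    intro s
    rw [TrivSqZeroExt.isUnit_iff_isUnit_fst, hf1]
    exact (isUnit_iff_ne_zero.2 (io_ne (nonZeroDivisors.ne_zero s.2))).map C
  let F : RatFunc E →+* DualNumber (RatFunc E)[X] := IsLocalization.lift hu
  have hF : ∀ p, F (io E p) = f p := fun p => IsLocalization.lift_eq hu p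
  have hF1 : ∀ x, (F x).fst = C x := by
    intro x
    obtain ⟨p, q, hq, hx⟩ := exists_frac x
    have h1 : (F x).fst * C (io E q) = C x * C (io E q) := by
      rw [← hf1, ← hF, ← TrivSqZeroExt.fst_mul, ← map_mul, hx, hF, hf1, ← hx, map_mul, hF, hf1]
    exact mul_right_cancel₀ (C_ne_zero.2 (io_ne hq)) h1
  refine ⟨fun x => (F x).snd, fun x y => ?_, fun x y => ?_, fun p => ?_⟩
  · simp only [map_add, TrivSqZeroExt.snd_add]
  · simp only [map_mul, TrivSqZeroExt.snd_mul, hF1]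
    simp
    ring
  · simp only [hF, hf2]

theorem delta_rf {Δ : RatFunc E → (RatFunc E)[X]}
    (h2 : ∀ x y, Δ (x * y) = C x * Δ y + C y * Δ x) (h3 : ∀ p, Δ (io E p) = dl D p)
    {P Q : E[X]} (hQ : Q ≠ 0) :
    Δ (rf P Q) = C (rf (vd D P Q) (Q ^ 2)) + C (rf (wr P Q) (Q ^ 2)) * X := by
  have hq : io E Q ≠ 0 := io_ne hQ
  have h4 : rf P Q * io E Q = io E P := div_mul_cancel₀ _ hq
  have h5 : Δ (io E P) = C (rf P Q) * Δ (io E Q) + C (io E Q) * Δ (rf P Q) := by
    rw [← h2, h4]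
  have h6 : C (io E Q) ^ 2 * Δ (rf P Q) =
      C (io E Q) * Δ (io E P) - C (io E P) * Δ (io E Q) := by
    rw [h5, ← h4, map_mul]
    ring
  have h7 : ∀ A : E[X], C (io E Q) ^ 2 * C (rf A (Q ^ 2)) = C (io E A) := by
    intro A
    rw [← C_pow, ← C_mul]
    congr 1
    have h8 : rf A (Q ^ 2) = io E A / io E (Q ^ 2) := rfl
    rw [h8, map_pow]
    exact mul_div_cancel₀ _ (pow_ne_zero _ hq)
  have h9 : (C (io E Q) ^ 2 : (RatFunc E)[X]) ≠ 0 := pow_ne_zero _ (C_ne_zero.2 hq)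
  refine mul_left_cancel₀ h9 ?_
  rw [h6, mul_add, ← mul_assoc, h7, h7, h3, h3]
  unfold dl vd wr
  rw [map_sub, map_sub, map_sub, map_sub, map_mul, map_mul, map_mul, map_mul, map_mul, map_mul,
    map_mul, map_mul]
  ring

/-- the extension of `σ` with the value `L` at the variable -/
noncomputable def AA (σ : RatFunc E →+* RatFunc E) (L : (RatFunc E)[X]) :
    (RatFunc E)[X] →+* (RatFunc E)[X] :=
  eval₂RingHom (C.comp σ) L

theorem AA_C (σ : RatFunc E →+* RatFunc E) (L : (RatFunc E)[X]) (x : RatFunc E) :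
    AA σ L (C x) = C (σ x) := by
  unfold AA
  simp

theorem AA_X (σ : RatFunc E →+* RatFunc E) (L : (RatFunc E)[X]) : AA σ L X = L := by
  unfold AA
  simp

theorem AA_delta {Δ : RatFunc E → (RatFunc E)[X]} (h1 : ∀ x y, Δ (x + y) = Δ x + Δ y)
    (h2 : ∀ x y, Δ (x * y) = C x * Δ y + C y * Δ x) (h3 : ∀ p, Δ (io E p) = dl D p)
    {φ : RatFunc E} {σ : RatFunc E →+* RatFunc E} (hσ : Sg φ σ) (x : RatFunc E) :
    AA σ (Δ φ) (Δ x) = Δ (σ x) := by
  have hmul : ∀ x y, AA σ (Δ φ) (Δ x) = Δ (σ x) → AA σ (Δ φ) (Δ y) = Δ (σ y) →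
      AA σ (Δ φ) (Δ (x * y)) = Δ (σ (x * y)) := by
    intro x y hx hy
    rw [h2, map_add, map_mul, map_mul, AA_C, AA_C, hx, hy, map_mul, h2]
  have hC : ∀ e : E, AA σ (Δ φ) (Δ (io E (C e))) = Δ (σ (io E (C e))) := by
    intro e
    have h4 : σ (io E (C e)) = io E (C e) := by rw [io_C, sg_alg hσ]
    have h5 : ∀ e' : E, σ (io E (C e')) = io E (C e') := fun e' => by rw [io_C, sg_alg hσ]
    rw [h4, h3]
    unfold dl
    rw [cD_C, derivative_C, map_zero, map_zero, zero_mul, add_zero, AA_C, h5]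
  have hX : AA σ (Δ φ) (Δ (io E X)) = Δ (σ (io E X)) := by
    rw [h3, hσ, aeval_X]
    unfold dl
    rw [cD_X, derivative_X, map_zero, map_zero, zero_add, map_one, map_one, one_mul, AA_X]
  have hp : ∀ p : E[X], AA σ (Δ φ) (Δ (io E p)) = Δ (σ (io E p)) := by
    intro p
    induction p using Polynomial.induction_on with
    | C a => exact hC a
    | add p q hp hq => rw [map_add, h1, map_add, hp, hq, map_add, h1]
    | monomial n a h =>
      rw [pow_succ, ← mul_assoc, map_mul]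
      exact hmul _ _ h hX
  obtain ⟨p, q, hq, hx⟩ := exists_frac x
  have h4 := hp p
  rw [← hx, map_mul, h2, h2, map_add, map_mul, map_mul, AA_C, AA_C, hp q] at h4
  have h5 : (C (σ (io E q)) : (RatFunc E)[X]) ≠ 0 := C_ne_zero.2 ((map_ne_zero σ).2 (io_ne hq))
  exact mul_left_cancel₀ h5 (add_left_cancel h4)

theorem AA_comp {Δ : RatFunc E → (RatFunc E)[X]} (h1 : ∀ x y, Δ (x + y) = Δ x + Δ y)
    (h2 : ∀ x y, Δ (x * y) = C x * Δ y + C y * Δ x) (h3 : ∀ p, Δ (io E p) = dl D p)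
    {φ ψ χ : RatFunc E} {σ τ ρ : RatFunc E →+* RatFunc E} (hσ : Sg φ σ) (hτ : Sg ψ τ)
    (hρ : Sg χ ρ) (h : χ = σ ψ) (g : (RatFunc E)[X]) :
    AA ρ (Δ χ) g = AA σ (Δ φ) (AA τ (Δ ψ) g) := by
  have h4 : AA ρ (Δ χ) = (AA σ (Δ φ)).comp (AA τ (Δ ψ)) := by
    refine Polynomial.ringHom_ext (fun x => ?_) ?_
    · rw [RingHom.comp_apply, AA_C, AA_C, AA_C, sg_comp hσ hτ hρ h]
    · rw [RingHom.comp_apply, AA_X, AA_X, AA_delta D h1 h2 h3 hσ, h]
  rw [h4]
  rfl

theorem AA_eq (σ : RatFunc E →+* RatFunc E) (L g : (RatFunc E)[X]) :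
    AA σ L g = (g.map σ).comp L := by
  unfold AA
  rw [coe_eval₂RingHom, Polynomial.comp, eval₂_map]

theorem AA_inj (σ : RatFunc E →+* RatFunc E) {v w : RatFunc E} (hw : w ≠ 0) :
    Function.Injective (AA σ (C v + C w * X)) := by
  rw [injective_iff_map_eq_zero]
  intro g hg
  rw [AA_eq, comp_eq_zero_iff] at hg
  rcases hg with hg | ⟨_, hg⟩
  · rwa [Polynomial.map_eq_zero] at hg
  · exfalso
    have h1 := congrArg (fun f : (RatFunc E)[X] => f.coeff 1) hg
    simp at h1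
    exact hw h1

theorem AA_scale {σ : RatFunc E →+* RatFunc E} {v w r : RatFunc E} (hr : σ r = v + w * r)
    (h : (RatFunc E)[X]) (j : ℕ) :
    (taylor r (AA σ (C v + C w * X) (taylor (-r) h))).coeff j = σ (h.coeff j) * w ^ j := by
  have h1 : ((taylorAlgHom r : (RatFunc E)[X] →+* (RatFunc E)[X]).comp
      ((AA σ (C v + C w * X)).comp (taylorAlgHom (-r) : (RatFunc E)[X] →+* (RatFunc E)[X]))) =
      AA σ (C w * X) := by
    refine Polynomial.ringHom_ext (fun x => ?_) ?_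
    · simp [AA_C]
    · simp [AA_C, AA_X, hr]
      ring
  have h2 : taylor r (AA σ (C v + C w * X) (taylor (-r) h)) = AA σ (C w * X) h := by
    rw [← h1]
    rfl
  rw [h2, AA_eq, comp_C_mul_X_coeff, coeff_map]

theorem taylor_coeff_sum {R : Type*} [CommRing R] {f : R[X]} {β l : ℕ} (hf : f.natDegree ≤ β)
    (hl : l ≤ β) (u : R) : (taylor u f).coeff (β - l) =
      ∑ n ∈ range (l + 1), (((n + (β - l)).choose (β - l) : ℕ) : R) * f.coeff (n + (β - l)) *
        u ^ n := by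
  have h1 : (hasseDeriv (β - l) f).natDegree < l + 1 := by
    have := natDegree_hasseDeriv_le f (β - l)
    omega
  rw [taylor_coeff, eval_eq_sum_range' h1]
  refine sum_congr rfl fun n _ => ?_
  rw [hasseDeriv_coeff]

theorem AA_taylor (σ : RatFunc E →+* RatFunc E) {v w : RatFunc E} (hw : w ≠ 0)
    (g : (RatFunc E)[X]) :
    AA σ (C v + C w * X) g = taylor (v / w) ((g.map σ).comp (C w * X)) := by
  rw [AA_eq, taylor_apply, comp_assoc]
  congr 1
  rw [mul_comp, C_comp, X_comp, mul_add, ← C_mul, mul_div_cancel₀ _ hw]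
  ring

theorem AA_coeff (σ : RatFunc E →+* RatFunc E) {v w : RatFunc E} (hw : w ≠ 0)
    {g : (RatFunc E)[X]} {β l : ℕ} (hg : g.natDegree ≤ β) (hl : l ≤ β) :
    (AA σ (C v + C w * X) g).coeff (β - l) = ∑ n ∈ range (l + 1),
      (((n + (β - l)).choose (β - l) : ℕ) : RatFunc E) *
        (σ (g.coeff (n + (β - l))) * w ^ (n + (β - l))) * (v / w) ^ n := by
  have h1 : ((g.map σ).comp (C w * X)).natDegree ≤ β := by
    rw [natDegree_le_iff_coeff_eq_zero]
    intro N hN
    rw [comp_C_mul_X_coeff, coeff_map, coeff_eq_zero_of_natDegree_lt (lt_of_le_of_lt hg hN),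
      map_zero, zero_mul]
  rw [AA_taylor σ hw, taylor_coeff_sum h1 hl]
  refine sum_congr rfl fun n _ => ?_
  rw [comp_C_mul_X_coeff, coeff_map]

theorem AA_coeff_top (σ : RatFunc E →+* RatFunc E) {v w : RatFunc E} (hw : w ≠ 0)
    {g : (RatFunc E)[X]} {β : ℕ} (hg : g.natDegree ≤ β) :
    (AA σ (C v + C w * X) g).coeff β = σ (g.coeff β) * w ^ β := by
  have h1 := AA_coeff σ (v := v) hw hg (Nat.zero_le β)
  rw [Nat.sub_zero] at h1
  rw [h1]
  simp

theorem AA_coeff_sub (σ : RatFunc E →+* RatFunc E) {v w : RatFunc E} (hw : w ≠ 0)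
    {g : (RatFunc E)[X]} {β : ℕ} (hβ : 1 ≤ β) (hg : g.natDegree ≤ β) :
    (AA σ (C v + C w * X) g).coeff (β - 1) =
      (σ (g.coeff (β - 1)) + σ (g.coeff β) * β * v) * w ^ (β - 1) := by
  rw [AA_coeff σ hw hg hβ]
  obtain ⟨b, rfl⟩ : ∃ b, β = b + 1 := ⟨β - 1, by omega⟩
  rw [Nat.add_sub_cancel, sum_range_succ, sum_range_one]
  have h1 : (1 + b).choose b = b + 1 := by
    rw [add_comm, Nat.choose_succ_self_right]
  rw [h1, zero_add, Nat.choose_self, add_comm 1 b, pow_succ]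
  push_cast
  field_simp

theorem io_sq_mul {P Q : E[X]} (hQ : Q ≠ 0) :
    (C (io E Q) ^ 2 : (RatFunc E)[X]) * (C (rf (vd D P Q) (Q ^ 2)) + C (rf (wr P Q) (Q ^ 2)) * X) =
      C (io E (vd D P Q)) + C (io E (wr P Q)) * X := by
  have hq : io E Q ≠ 0 := io_ne hQ
  have h7 : ∀ A : E[X], (C (io E Q) ^ 2 : (RatFunc E)[X]) * C (rf A (Q ^ 2)) = C (io E A) := by
    intro A
    rw [← C_pow, ← C_mul]
    congr 1
    have h8 : rf A (Q ^ 2) = io E A / io E (Q ^ 2) := rfl
    rw [h8, map_pow]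
    exact mul_div_cancel₀ _ (pow_ne_zero _ hq)
  rw [mul_add, ← mul_assoc, h7, h7]

theorem map_pb {d : ℕ} {p q : E[X]} {β H n : ℕ} {G : E[X][X]} (hG : G.natDegree ≤ β)
    (hGc : ∀ i, (G.coeff i).natDegree ≤ H) (hQ : (itr d p q n).2 ≠ 0)
    {σ : RatFunc E →+* RatFunc E} (hσ : Sg (rf (itr d p q n).1 (itr d p q n).2) σ) :
    (pb D d p q β H n G).map (io E) = C (io E (itr d p q n).2 ^ (H + 2 * β)) *
      AA σ (C (rf (vd D (itr d p q n).1 (itr d p q n).2) ((itr d p q n).2 ^ 2)) +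
        C (rf (wr (itr d p q n).1 (itr d p q n).2) ((itr d p q n).2 ^ 2)) * X)
        (G.map (io E)) := by
  unfold pb
  set P := (itr d p q n).1 with hPd
  set Q := (itr d p q n).2 with hQd
  set L : (RatFunc E)[X] := C (rf (vd D P Q) (Q ^ 2)) + C (rf (wr P Q) (Q ^ 2)) * X with hL
  have h1 : AA σ L (G.map (io E)) = ∑ i ∈ range (β + 1), C (σ (io E (G.coeff i))) * L ^ i := by
    unfold AA
    rw [coe_eval₂RingHom, eval₂_map, eval₂_eq_sum_range' _ (Nat.lt_succ_of_le hG)]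
    rfl
  have h2 := io_sq_mul D (P := P) hQ
  rw [← hL] at h2
  rw [h1, Polynomial.map_sum, mul_sum]
  refine sum_congr rfl fun i hi => ?_
  have hi' : i ≤ β := Nat.lt_succ_iff.1 (mem_range.1 hi)
  rw [Polynomial.map_mul, Polynomial.map_pow, Polynomial.map_add, Polynomial.map_mul, map_C, map_C,
    map_C, map_X, ← h2, map_mul, map_pow, io_hcm (hGc i) hQ, hσ, mul_pow, C_mul, C_mul, C_pow,
    C_pow, C_pow]
  obtain ⟨j, rfl⟩ : ∃ j, β = j + i := ⟨β - i, by omega⟩
  rw [Nat.add_sub_cancel]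
  ring

theorem core [CharZero E] {P Q : E[X]} {σ : RatFunc E →+* RatFunc E} (hσ : Sg (rf P Q) σ)
    {v w : RatFunc E} (hv : v = rf (vd D P Q) (Q ^ 2)) (hw' : w = rf (wr P Q) (Q ^ 2))
    (hw : w ≠ 0) {β H : ℕ} (hβ : 1 ≤ β) {G : E[X][X]} (hG : G.natDegree ≤ β)
    (hG0 : G.coeff β ≠ 0) (hGc : ∀ i, (G.coeff i).natDegree ≤ H)
    (hstar : C (σ (io E (G.coeff β)) * w ^ β) * G.map (io E) =
      C (io E (G.coeff β)) * AA σ (C v + C w * X) (G.map (io E))) :
    Ric D P Q (-G.coeff (β - 1)) (C (β : E) * G.coeff β) ∧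
    ∃ T : ℕ → E[X], (∀ l, (T l).natDegree ≤ H * (l + 1)) ∧
      (∀ l, 1 ≤ l → l ≤ β → Pool.Agent.Q41.SU.Inv P Q l (T l)
        (G.coeff β * (C (β : E) * G.coeff β) ^ l)) ∧
      ((∀ l, 1 ≤ l → l ≤ β → T l = 0) → C ((C (β : E) * G.coeff β) ^ β) * G =
        C (G.coeff β) * (C (C (β : E) * G.coeff β) * X - C (-G.coeff (β - 1))) ^ β) := by
  set g := G.map (io E) with hgd
  set c := io E (G.coeff β) with hcd
  have hc : c ≠ 0 := io_ne hG0
  set R₁ : E[X] := -G.coeff (β - 1) with hR₁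
  set R₂ : E[X] := C (β : E) * G.coeff β with hR₂
  set ρ := io E R₂ with hρd
  have hR₂0 : R₂ ≠ 0 :=
    mul_ne_zero (C_ne_zero.2 (Nat.cast_ne_zero.2 (by omega))) hG0
  have hρ : ρ ≠ 0 := io_ne hR₂0
  have hρ' : ρ = (β : RatFunc E) * c := by
    rw [hρd, hR₂, map_mul, io_C, map_natCast]
  have hgdeg : g.natDegree ≤ β := (natDegree_map_le).trans hG
  have hgc : ∀ i, g.coeff i = io E (G.coeff i) := fun i => by rw [hgd, coeff_map]
  set g1 := g.coeff (β - 1) with hg1
  have hR₁' : io E R₁ = -g1 := by rw [hR₁, map_neg, hg1, hgc]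
  have hσρ : σ ρ = (β : RatFunc E) * σ c := by rw [hρ', map_mul, map_natCast]
  have hric : σ c * w * g1 = c * (σ g1 + σ c * β * v) := by
    have h1 := congrArg (fun f : (RatFunc E)[X] => f.coeff (β - 1)) hstar
    simp only [coeff_C_mul] at h1
    rw [AA_coeff_sub σ hw hβ hgdeg, ← hg1, hgc β, ← hcd] at h1
    have h2 : w ^ β = w * w ^ (β - 1) := by
      rw [← pow_succ', Nat.sub_add_cancel hβ]
    rw [h2] at h1
    have h3 : w ^ (β - 1) ≠ 0 := pow_ne_zero _ hw
    refine mul_right_cancel₀ h3 ?_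
    linear_combination h1
  have hRic : Ric D P Q R₁ R₂ := by
    unfold Ric
    rw [← hσ, ← hσ, ← hv, ← hw']
    change σ (io E R₁) * ρ = (v * ρ + w * io E R₁) * σ ρ
    rw [hR₁', hσρ, hρ', map_neg]
    linear_combination (β : RatFunc E) * hric
  refine ⟨hRic, ?_⟩
  set r := io E R₁ / ρ with hrd
  have hrρ : r * ρ = io E R₁ := div_mul_cancel₀ _ hρ
  have hσρ0 : σ ρ ≠ 0 := (map_ne_zero σ).2 hρ
  have hr : σ r = v + w * r := by
    have h1 : aeval (rf P Q) R₁ * ρ = (v * ρ + w * io E R₁) * aeval (rf P Q) R₂ := by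
      have h0 := hRic
      unfold Ric at h0
      rw [← hv, ← hw'] at h0
      exact h0
    rw [← hσ, ← hσ, ← hρd, ← hrρ, map_mul] at h1
    refine mul_right_cancel₀ (mul_ne_zero hσρ0 hρ) ?_
    linear_combination h1
  set h := taylor r g with hhd
  have hg : g = taylor (-r) h := by
    rw [hhd, taylor_taylor, neg_add_cancel, taylor_zero]
  have hh : ∀ j, σ c * w ^ β * h.coeff j = c * (σ (h.coeff j) * w ^ j) := by
    intro j
    have h1 := congrArg (fun f : (RatFunc E)[X] => (taylor r f).coeff j) hstar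
    simp only [taylor_mul, taylor_C, coeff_C_mul] at h1
    rw [← hhd] at h1
    rw [h1]
    congr 1
    conv_lhs => rw [hg]
    exact AA_scale hr h j
  let T : ℕ → E[X] := fun l => ∑ n ∈ range (l + 1),
    C (((n + (β - l)).choose (β - l) : ℕ) : E) * G.coeff (n + (β - l)) * R₁ ^ n * R₂ ^ (l - n)
  have hT : ∀ l ≤ β, io E (T l) = h.coeff (β - l) * ρ ^ l := by
    intro l hl
    rw [hhd, taylor_coeff_sum hgdeg hl, sum_mul]
    simp only [T]
    rw [map_sum]
    refine sum_congr rfl fun n hn => ?_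
    have hn' : n ≤ l := Nat.lt_succ_iff.1 (mem_range.1 hn)
    rw [map_mul, map_mul, map_mul, map_pow, map_pow, io_C, map_natCast, hgc, ← hrρ, ← hρd]
    obtain ⟨j, rfl⟩ : ∃ j, l = j + n := ⟨l - n, by omega⟩
    rw [Nat.add_sub_cancel, mul_pow, pow_add]
    ring
  refine ⟨T, ?_, ?_, ?_⟩
  · intro l
    simp only [T]
    refine natDegree_sum_le_of_forall_le _ _ fun n hn => ?_
    have hn' : n ≤ l := Nat.lt_succ_iff.1 (mem_range.1 hn)
    have e1 : R₁.natDegree ≤ H := by rw [hR₁, natDegree_neg]; exact hGc _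
    have e2 : R₂.natDegree ≤ H := (natDegree_C_mul_le _ _).trans (hGc _)
    have e3 : (C (((n + (β - l)).choose (β - l) : ℕ) : E) * G.coeff (n + (β - l))).natDegree ≤ H :=
      (natDegree_C_mul_le _ _).trans (hGc _)
    have e4 : (R₁ ^ n).natDegree ≤ n * H := natDegree_pow_le.trans (Nat.mul_le_mul_left _ e1)
    have e5 : (R₂ ^ (l - n)).natDegree ≤ (l - n) * H :=
      natDegree_pow_le.trans (Nat.mul_le_mul_left _ e2)
    refine (natDegree_mul_le.trans (Nat.add_le_add (natDegree_mul_le.trans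
      (Nat.add_le_add e3 e4)) e5)).trans (le_of_eq ?_)
    obtain ⟨j, rfl⟩ : ∃ j, l = j + n := ⟨l - n, by omega⟩
    rw [Nat.add_sub_cancel]
    ring
  · intro l hl1 hl
    have h1 := hh (β - l)
    have h2 : w ^ β = w ^ l * w ^ (β - l) := by rw [← pow_add]; congr 1; omega
    rw [h2] at h1
    have h3 : σ c * w ^ l * h.coeff (β - l) = c * σ (h.coeff (β - l)) := by
      refine mul_right_cancel₀ (pow_ne_zero (β - l) hw) ?_
      linear_combination h1
    unfold Pool.Agent.Q41.SU.Inv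
    rw [← hσ, ← hσ, ← hw']
    change σ (io E (T l)) * io E (G.coeff β * R₂ ^ l) =
      w ^ l * (io E (T l) * σ (io E (G.coeff β * R₂ ^ l)))
    have h4 : io E (G.coeff β * R₂ ^ l) = c * ρ ^ l := by rw [map_mul, map_pow]
    rw [hT l hl, h4, map_mul, map_mul, map_pow]
    linear_combination (-(σ ρ ^ l * ρ ^ l)) * h3
  · intro hT0
    have h1 : h = C c * X ^ β := by
      ext j
      rw [coeff_C_mul_X_pow]
      rcases lt_trichotomy j β with hj | hj | hj
      · rw [if_neg (by omega)]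
        have h2 := hT (β - j) (by omega)
        rw [hT0 (β - j) (by omega) (by omega), map_zero] at h2
        have h3 : β - (β - j) = j := by omega
        rw [h3] at h2
        exact (mul_eq_zero.1 h2.symm).resolve_right (pow_ne_zero _ hρ)
      · rw [if_pos hj, hj]
        have h2 := hT 0 (Nat.zero_le _)
        rw [pow_zero, mul_one, Nat.sub_zero] at h2
        rw [← h2]
        simp only [T]
        simp [hcd]
      · rw [if_neg (by omega)]
        refine coeff_eq_zero_of_natDegree_lt ?_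
        rw [hhd, natDegree_taylor]
        omega
    have h4 : g = C c * (X - C r) ^ β := by
      rw [hg, h1, taylor_mul, taylor_C, taylor_pow, taylor_X, C_neg, sub_eq_add_neg]
    refine Polynomial.map_injective (io E) io_inj ?_
    rw [Polynomial.map_mul, Polynomial.map_mul, Polynomial.map_pow, Polynomial.map_sub,
      Polynomial.map_mul, map_C, map_C, map_C, map_C, map_X, ← hgd, ← hcd, ← hρd, map_pow, ← hρd,
      h4, ← hrρ]
    have h5 : (C ρ * X - C (r * ρ) : (RatFunc E)[X]) = C ρ * (X - C r) := by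
      rw [C_mul]
      ring
    rw [h5, mul_pow, C_pow]
    ring

end

theorem t_algr (hit : S_it.{u}) : S_algr.{u} := by
  intro k E _ _ _ _ D d p q hd hp hq hco β H i m hβ G hG hG0 hGc hyp
  obtain ⟨i1, i2, i3, i4, _⟩ := hit E d p q hd hp hq hco i
  obtain ⟨m1, m2, m3, _, _⟩ := hit E d p q hd hp hq hco m
  obtain ⟨n1, n2, n3, _, _⟩ := hit E d p q hd hp hq hco (i + m)
  have him := i4 m
  have e1 : 1 ≤ max (itr d p q i).1.natDegree (itr d p q i).2.natDegree := by
    rw [i3]; exact Nat.one_le_pow _ _ hd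
  have e2 : 1 ≤ max (itr d p q m).1.natDegree (itr d p q m).2.natDegree := by
    rw [m3]; exact Nat.one_le_pow _ _ hd
  have e3 : 1 ≤ max (itr d p q (i + m)).1.natDegree (itr d p q (i + m)).2.natDegree := by
    rw [n3]; exact Nat.one_le_pow _ _ hd
  obtain ⟨σ, hσ⟩ := exists_sg i1 i2 e1
  obtain ⟨τ, hτ⟩ := exists_sg m1 m2 e2
  obtain ⟨κ, hκ⟩ := exists_sg n1 n2 e3
  obtain ⟨Δ, h1, h2, h3⟩ := exists_delta D
  have p1 := map_pb D hG hGc i2 hσ
  have p3 := map_pb D hG hGc n2 hκ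
  have d1 := delta_rf D h2 h3 (P := (itr d p q i).1) i2
  have d2 := delta_rf D h2 h3 (P := (itr d p q m).1) m2
  have d3 := delta_rf D h2 h3 (P := (itr d p q (i + m)).1) n2
  have wne : ∀ {P Q : E[X]}, IsCoprime P Q → Q ≠ 0 → 1 ≤ max P.natDegree Q.natDegree →
      rf (wr P Q) (Q ^ 2) ≠ 0 := fun hco hQ hdeg =>
    div_ne_zero (io_ne (wr_ne hco hdeg)) (io_ne (pow_ne_zero _ hQ))
  have w1 := wne i1 i2 e1
  have w2 := wne m1 m2 e2
  have w3 := wne n1 n2 e3
  have hchi : rf (itr d p q (i + m)).1 (itr d p q (i + m)).2 =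
      σ (rf (itr d p q m).1 (itr d p q m).2) := by
    rw [him]
    have h4 : rf (itr d p q m).1 (itr d p q m).2 =
      io E (itr d p q m).1 / io E (itr d p q m).2 := rfl
    rw [h4, map_div₀, hσ, hσ]
  have hcomp := AA_comp D h1 h2 h3 hσ hτ hκ hchi
  have hdel := AA_delta D h1 h2 h3 hσ (rf (itr d p q m).1 (itr d p q m).2)
  rw [← hchi] at hdel
  have hsc := sg_comp hσ hτ hκ hchi
  set g := G.map (io E) with hgd
  have hgdeg : g.natDegree ≤ β := (natDegree_map_le).trans hG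
  have hgc : g.coeff β = io E (G.coeff β) := by rw [hgd, coeff_map]
  set c := io E (G.coeff β) with hcd
  have q1 : io E (itr d p q i).2 ^ (H + 2 * β) ≠ 0 := pow_ne_zero _ (io_ne i2)
  have q3 : io E (itr d p q (i + m)).2 ^ (H + 2 * β) ≠ 0 := pow_ne_zero _ (io_ne n2)
  have hyp' := congrArg (Polynomial.map (io E)) hyp
  rw [Polynomial.map_mul, Polynomial.map_mul, map_C, map_C] at hyp'
  have c1 : io E ((pb D d p q β H i G).coeff β) =
      ((pb D d p q β H i G).map (io E)).coeff β := (coeff_map _ _).symm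
  have c3 : io E ((pb D d p q β H (i + m) G).coeff β) =
      ((pb D d p q β H (i + m) G).map (io E)).coeff β := (coeff_map _ _).symm
  rw [c1, c3, p1, p3] at hyp'
  set v₁ := rf (vd D (itr d p q i).1 (itr d p q i).2) ((itr d p q i).2 ^ 2)
  set w₁ := rf (wr (itr d p q i).1 (itr d p q i).2) ((itr d p q i).2 ^ 2)
  set v₂ := rf (vd D (itr d p q m).1 (itr d p q m).2) ((itr d p q m).2 ^ 2) with hv2
  set w₂ := rf (wr (itr d p q m).1 (itr d p q m).2) ((itr d p q m).2 ^ 2) with hw2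
  set v₃ := rf (vd D (itr d p q (i + m)).1 (itr d p q (i + m)).2) ((itr d p q (i + m)).2 ^ 2)
  set w₃ := rf (wr (itr d p q (i + m)).1 (itr d p q (i + m)).2) ((itr d p q (i + m)).2 ^ 2)
  rw [coeff_C_mul, coeff_C_mul, AA_coeff_top σ w1 hgdeg, AA_coeff_top κ w3 hgdeg, hgc] at hyp'
  rw [d1, d2, d3] at hdel
  rw [d1, d2, d3] at hcomp
  have hw3 : w₃ = σ w₂ * w₁ := by
    rw [map_add, map_mul, AA_C, AA_C, AA_X] at hdel
    have h4 := congrArg (fun f : (RatFunc E)[X] => f.coeff 1) hdel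
    simp at h4
    exact h4.symm
  refine core D hτ hv2 hw2 w2 hβ hG hG0 hGc ?_
  rw [← hgd, ← hcd]
  refine AA_inj σ (v := v₁) w1 ?_
  rw [hcomp g, hsc, hw3] at hyp'
  rw [RingHom.map_mul, RingHom.map_mul (AA σ (C v₁ + C w₁ * X)) (C c), AA_C, AA_C, σ.map_mul,
    σ.map_pow]
  have q4 : (C (io E (itr d p q i).2 ^ (H + 2 * β) * io E (itr d p q (i + m)).2 ^ (H + 2 * β) *
      w₁ ^ β) : (RatFunc E)[X]) ≠ 0 :=
    C_ne_zero.2 (mul_ne_zero (mul_ne_zero q1 q3) (pow_ne_zero _ w1))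
  refine mul_left_cancel₀ q4 ?_
  simp only [C_mul, mul_pow] at hyp' ⊢
  linear_combination hyp'

end Pool.Agent.Q210.SU.N4
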