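import Pool.Agent.Q41.SU.Stm5

set_option autoImplicit false

/-!
# Project SU, job N7: constant iterates
-/

namespace Pool.Agent.Q210.SU.N7

open Finset Polynomial
open Pool.Agent.Q41.SU
open Pool.Agent.W277.UH (ConjConst hc hev hev_smul hev_one hev_zero hev_eval hc_eval hc_aeval hc_degree hc_coeff
  lin_deg conj_of_cross)

universe u

section

variable {k E : Type*} [Field k] [Field E] [Algebra k E]

/-- the vector is proportional to a vector with entries in `k` -/
def KR (k : Type*) {E : Type*} [Field k] [Field E] [Algebra k E] (v : E × E) : Prop :=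
  ∃ s : k × k, s ≠ 0 ∧ algebraMap k E s.2 * v.1 = algebraMap k E s.1 * v.2

theorem KR.smul {v : E × E} {t : E} (ht : t ≠ 0) (h : KR k (t • v)) : KR k v := by
  obtain ⟨s, hs, h1⟩ := h
  refine ⟨s, hs, ?_⟩
  simp only [Prod.smul_fst, Prod.smul_snd, smul_eq_mul] at h1
  apply mul_left_cancel₀ ht
  linear_combination h1

theorem KR.exists_scalar {v : E × E} (hv : v ≠ 0) (h : KR k v) : ∃ (s : k × k) (t : E), t ≠ 0 ∧
    v = (t * algebraMap k E s.1, t * algebraMap k E s.2) := by
  obtain ⟨s, hs, h1⟩ := h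
  by_cases h2 : s.2 = 0
  · have h3 : s.1 ≠ 0 := fun h3 => hs (Prod.ext h3 h2)
    have h4 : algebraMap k E s.1 ≠ 0 := (map_ne_zero_iff _ (algebraMap k E).injective).2 h3
    rw [h2, map_zero, zero_mul] at h1
    have h5 : v.2 = 0 := (mul_eq_zero.1 h1.symm).resolve_left h4
    have h6 : v.1 ≠ 0 := fun h6 => hv (Prod.ext h6 h5)
    refine ⟨s, v.1 / algebraMap k E s.1, div_ne_zero h6 h4, ?_⟩
    refine Prod.ext ?_ ?_
    · simp only
      rw [div_mul_cancel₀ _ h4]
    · simp only
      rw [h5, h2, map_zero, mul_zero]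
  · have h4 : algebraMap k E s.2 ≠ 0 := (map_ne_zero_iff _ (algebraMap k E).injective).2 h2
    have h6 : v.2 ≠ 0 := by
      intro h6
      rw [h6, mul_zero] at h1
      exact hv (Prod.ext ((mul_eq_zero.1 h1).resolve_left h4) h6)
    refine ⟨s, v.2 / algebraMap k E s.2, div_ne_zero h6 h4, ?_⟩
    refine Prod.ext ?_ ?_
    · simp only
      rw [div_mul_eq_mul_div, eq_div_iff h4]
      linear_combination h1
    · simp only
      rw [div_mul_cancel₀ _ h4]

theorem root_mem [IsAlgClosed k] {g : k[X]} (hg : g ≠ 0) {τ : E} (h : aeval τ g = 0) :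
    ∃ r : k, algebraMap k E r = τ := by
  have h1 : IsIntegral k τ := isAlgebraic_iff_isIntegral.1 ⟨g, hg, h⟩
  have h2 := IsAlgClosed.degree_eq_one_of_irreducible k (minpoly.irreducible h1)
  exact minpoly.mem_range_of_degree_eq_one k τ h2

theorem KR_of_root [IsAlgClosed k] {g : k[X]} (hg : g ≠ 0) {v : E × E}
    (h : v.2 ≠ 0 → aeval (v.1 / v.2) g = 0) : KR k v := by
  by_cases h2 : v.2 = 0
  · exact ⟨(1, 0), by simp, by simp [h2]⟩
  · obtain ⟨r, hr⟩ := root_mem hg (h h2)
    refine ⟨(r, 1), by simp, ?_⟩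
    simp only [map_one, one_mul]
    rw [hr, div_mul_cancel₀ _ h2]

/-- the form has no common zero -/
def NZ (D : ℕ) (u w : k[X]) : Prop := ∀ s : k × k, hev D u s = 0 → hev D w s = 0 → s = 0

/-- the map on vectors -/
noncomputable def SE (E : Type*) [Field E] [Algebra k E] (D : ℕ) (u w : k[X]) (v : E × E) : E × E :=
  (hev D (u.map (algebraMap k E)) v, hev D (w.map (algebraMap k E)) v)

theorem SE_smul (D : ℕ) (u w : k[X]) (t : E) (v : E × E) : SE E D u w (t • v) = t ^ D • SE E D u w v := by
  unfold SE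
  rw [hev_smul, hev_smul]
  rfl

theorem iter_smul (D : ℕ) (u w : k[X]) (n : ℕ) (t : E) (v : E × E) :
    ∃ e : ℕ, (SE E D u w)^[n] (t • v) = t ^ e • (SE E D u w)^[n] v := by
  induction n with
  | zero => exact ⟨1, by simp⟩
  | succ n ih =>
    obtain ⟨e, he⟩ := ih
    refine ⟨e * D, ?_⟩
    rw [Function.iterate_succ_apply', Function.iterate_succ_apply', he, SE_smul, pow_mul]

/-- a polynomial multiple of a constant vector has a zero -/
theorem not_prop [IsAlgClosed k] {D : ℕ} (hD : 1 ≤ D) {u w : k[X]} (hu : u.natDegree ≤ D)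
    (hw : w.natDegree ≤ D) (hNZ : NZ D u w) (s : k × k) (hs : s ≠ 0) : C s.2 * u - C s.1 * w ≠ 0 := by
  intro h0
  obtain ⟨h, e1, e2⟩ : ∃ h : k[X], u = C s.1 * h ∧ w = C s.2 * h := by
    by_cases h1 : s.1 = 0
    · have h2 : s.2 ≠ 0 := fun h2 => hs (Prod.ext h1 h2)
      rw [h1, C_0, zero_mul, sub_zero] at h0
      refine ⟨C s.2⁻¹ * w, ?_, ?_⟩
      · rw [h1, C_0, zero_mul]
        exact (mul_eq_zero.1 h0).resolve_left (C_ne_zero.2 h2)
      · rw [← mul_assoc, ← C_mul, mul_inv_cancel₀ h2, C_1, one_mul]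
    · refine ⟨C s.1⁻¹ * u, ?_, ?_⟩
      · rw [← mul_assoc, ← C_mul, mul_inv_cancel₀ h1, C_1, one_mul]
      · have h2 : C s.1 * w = C s.2 * u := (sub_eq_zero.1 h0).symm
        have h3 : C s.1 * w = C s.1 * (C s.2 * (C s.1⁻¹ * u)) := by
          rw [h2]
          have h4 : C s.1 * (C s.2 * (C s.1⁻¹ * u)) = C (s.1 * s.1⁻¹) * (C s.2 * u) := by
            rw [C_mul]
            ring
          rw [h4, mul_inv_cancel₀ h1, C_1, one_mul]
        exact mul_left_cancel₀ (C_ne_zero.2 h1) h3
  by_cases hdeg : h.natDegree = 0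
  · have h1 : ∀ c : k, (C c * h).coeff D = 0 := by
      intro c
      rw [coeff_C_mul, coeff_eq_zero_of_natDegree_lt (by omega), mul_zero]
    have h2 := hNZ (1, 0) (by rw [hev_zero, e1, h1, zero_mul]) (by rw [hev_zero, e2, h1, zero_mul])
    simp at h2
  · obtain ⟨x, hx⟩ := IsAlgClosed.exists_root h (fun h1 => hdeg (natDegree_eq_of_degree_eq_some h1))
    have hx' : h.eval x = 0 := hx
    have h2 := hNZ (x, 1) (by rw [hev_one _ _ hu, e1, eval_mul, hx', mul_zero])
      (by rw [hev_one _ _ hw, e2, eval_mul, hx', mul_zero])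
    simp at h2

theorem KR_back [IsAlgClosed k] {D : ℕ} (hD : 1 ≤ D) {u w : k[X]} (hu : u.natDegree ≤ D)
    (hw : w.natDegree ≤ D) (hNZ : NZ D u w) {v : E × E} (h : KR k (SE E D u w v)) : KR k v := by
  obtain ⟨s, hs, h1⟩ := h
  refine KR_of_root (not_prop hD hu hw hNZ s hs) fun h2 => ?_
  unfold SE at h1
  simp only at h1
  rw [hev_eval _ _ (natDegree_map_le.trans hu) _ h2, hev_eval _ _ (natDegree_map_le.trans hw) _ h2] at h1
  rw [map_sub, map_mul, map_mul, aeval_C, aeval_C, aeval_def, aeval_def, ← eval_map, ← eval_map]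
  apply mul_left_cancel₀ (pow_ne_zero D h2)
  linear_combination h1

/-- the iterates -/
noncomputable def st (D : ℕ) (u w : k[X]) : ℕ → k[X] × k[X]
  | 0 => (X, 1)
  | n + 1 => (hc D u (st D u w n).1 (st D u w n).2, hc D w (st D u w n).1 (st D u w n).2)

theorem st_deg (D : ℕ) (u w : k[X]) (n : ℕ) : (st D u w n).1.natDegree ≤ D ^ n ∧
    (st D u w n).2.natDegree ≤ D ^ n := by
  induction n with
  | zero => exact ⟨by simp [st], by simp [st]⟩
  | succ n ih =>
    rw [pow_succ, mul_comm]
    exact ⟨hc_degree _ _ _ _ _ ih.1 ih.2, hc_degree _ _ _ _ _ ih.1 ih.2⟩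

theorem st_coeff {D : ℕ} {u w : k[X]} (hNZ : NZ D u w) (n : ℕ) :
    ((st D u w n).1.coeff (D ^ n), (st D u w n).2.coeff (D ^ n)) ≠ (0, 0) := by
  induction n with
  | zero =>
    intro h
    have h1 := congrArg Prod.fst h
    simp [st] at h1
  | succ n ih =>
    obtain ⟨h1, h2⟩ := st_deg D u w n
    intro h
    apply ih
    apply hNZ
    · have h3 := congrArg Prod.fst h
      rw [pow_succ, mul_comm] at h3
      change (hc D u (st D u w n).1 (st D u w n).2).coeff (D * D ^ n) = 0 at h3
      rwa [hc_coeff _ _ _ _ _ h1 h2] at h3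
    · have h3 := congrArg Prod.snd h
      rw [pow_succ, mul_comm] at h3
      change (hc D w (st D u w n).1 (st D u w n).2).coeff (D * D ^ n) = 0 at h3
      rwa [hc_coeff _ _ _ _ _ h1 h2] at h3

theorem st_eval {D : ℕ} {u w : k[X]} (hNZ : NZ D u w) (n : ℕ) (x : k) :
    ((st D u w n).1.eval x, (st D u w n).2.eval x) ≠ (0, 0) := by
  induction n with
  | zero =>
    intro h
    have h1 := congrArg Prod.snd h
    simp [st] at h1
  | succ n ih =>
    intro h
    apply ih
    apply hNZ
    · have h3 := congrArg Prod.fst h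
      change (hc D u (st D u w n).1 (st D u w n).2).eval x = 0 at h3
      rwa [hc_eval] at h3
    · have h3 := congrArg Prod.snd h
      change (hc D w (st D u w n).1 (st D u w n).2).eval x = 0 at h3
      rwa [hc_eval] at h3

theorem st_aeval (D : ℕ) (u w : k[X]) (n : ℕ) (τ : E) :
    (aeval τ (st D u w n).1, aeval τ (st D u w n).2) = (SE E D u w)^[n] (τ, 1) := by
  induction n with
  | zero => simp [st]
  | succ n ih =>
    rw [Function.iterate_succ_apply', ← ih]
    change (aeval τ (hc D u (st D u w n).1 (st D u w n).2), aeval τ (hc D w (st D u w n).1 (st D u w n).2)) = _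
    rw [hc_aeval, hc_aeval]
    rfl

/-- the iterates are not the identity -/
theorem st_ne [IsAlgClosed k] {D : ℕ} (hD : 2 ≤ D) {u w : k[X]} (hNZ : NZ D u w) {n : ℕ}
    (hn : 1 ≤ n) : (st D u w n).1 - X * (st D u w n).2 ≠ 0 := by
  intro h0
  have h1 : (st D u w n).1 = X * (st D u w n).2 := sub_eq_zero.1 h0
  by_cases hdeg : (st D u w n).2.natDegree = 0
  · obtain ⟨c, hc⟩ := natDegree_eq_zero.1 hdeg
    have h2 : 2 ≤ D ^ n := by
      calc 2 ≤ D := hD
        _ = D ^ 1 := (pow_one D).symm
        _ ≤ D ^ n := Nat.pow_le_pow_right (by omega) hn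
    apply st_coeff hNZ n
    rw [h1, ← hc]
    refine Prod.ext ?_ ?_
    · change (X * C c).coeff (D ^ n) = 0
      rw [mul_comm, coeff_C_mul, coeff_X, if_neg (by omega), mul_zero]
    · change (C c).coeff (D ^ n) = 0
      rw [coeff_C, if_neg (by omega)]
  · obtain ⟨x, hx⟩ := IsAlgClosed.exists_root (st D u w n).2
      (fun h1 => hdeg (natDegree_eq_of_degree_eq_some h1))
    have hx' : (st D u w n).2.eval x = 0 := hx
    apply st_eval hNZ n x
    rw [h1]
    refine Prod.ext ?_ ?_
    · change (X * (st D u w n).2).eval x = 0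
      rw [eval_mul, hx', mul_zero]
    · exact hx'

theorem KR_periodic [IsAlgClosed k] {D : ℕ} (hD : 2 ≤ D) {u w : k[X]} (hNZ : NZ D u w) {n : ℕ}
    (hn : 1 ≤ n) {v : E × E} {t : E} (h : (SE E D u w)^[n] v = t • v) : KR k v := by
  refine KR_of_root (st_ne hD hNZ hn) fun h2 => ?_
  have h1 : v = v.2 • ((v.1 / v.2, 1) : E × E) := by
    refine Prod.ext ?_ ?_
    · change v.1 = v.2 * (v.1 / v.2)
      rw [mul_div_cancel₀ _ h2]
    · change v.2 = v.2 * 1
      rw [mul_one]
  obtain ⟨e, he⟩ := iter_smul (E := E) D u w n v.2 (v.1 / v.2, 1)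
  rw [← h1, ← st_aeval, h] at he
  have h3 : t * v.1 = v.2 ^ e * aeval (v.1 / v.2) (st D u w n).1 := congrArg Prod.fst he
  have h4 : t * v.2 = v.2 ^ e * aeval (v.1 / v.2) (st D u w n).2 := congrArg Prod.snd he
  rw [map_sub, map_mul, aeval_X]
  apply mul_left_cancel₀ (pow_ne_zero e h2)
  have h5 : v.1 / v.2 * v.2 = v.1 := div_mul_cancel₀ _ h2
  linear_combination -h3 + v.1 / v.2 * h4 - t * h5

end

theorem n7 (hit : S_it.{u}) : S_isoit.{u} := by
  intro k E _ _ _ _ d m p q hd hm hp hq hco hconj P hP hcard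
  classical
  obtain ⟨i1, i2, i3, -, i5⟩ := hit E d p q (by omega) hp hq hco m
  obtain ⟨hPm, hPe⟩ := i5 P hP
  obtain ⟨F, hF⟩ : ∃ F, F = (itr d p q m).1 := ⟨_, rfl⟩
  obtain ⟨G, hG⟩ : ∃ G, G = (itr d p q m).2 := ⟨_, rfl⟩
  rw [← hF, ← hG] at i1 i3 hPm hconj
  rw [← hG] at i2
  simp only [← hF, ← hG] at hPe
  obtain ⟨D, hD⟩ : ∃ D, D = d ^ m := ⟨_, rfl⟩
  rw [← hD] at i3 hconj
  have hD2 : 2 ≤ D := by
    rw [hD]
    calc 2 ≤ d := hd
      _ = d ^ 1 := (pow_one d).symm
      _ ≤ d ^ m := Nat.pow_le_pow_right (by omega) hm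
  obtain ⟨a, b, c, e, hdet, u, w, huw, hu, hw, hrel⟩ := hconj
  have hFD : F.natDegree ≤ D := i3 ▸ le_max_left _ _
  have hGD : G.natDegree ≤ D := i3 ▸ le_max_right _ _
  obtain ⟨Fa, hFa⟩ : ∃ Fa, Fa = C a * F + C b * G := ⟨_, rfl⟩
  obtain ⟨Gc, hGc⟩ : ∃ Gc, Gc = C c * F + C e * G := ⟨_, rfl⟩
  rw [← hFa, ← hGc] at hrel
  obtain ⟨Uh, hUh⟩ : ∃ Uh, Uh = hc D (u.map (algebraMap k E)) (C a * X + C b) (C c * X + C e) := ⟨_, rfl⟩
  obtain ⟨Wh, hWh⟩ : ∃ Wh, Wh = hc D (w.map (algebraMap k E)) (C a * X + C b) (C c * X + C e) := ⟨_, rfl⟩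
  rw [← hUh, ← hWh] at hrel
  have e1 : C (a * e - b * c) * F = C e * Fa - C b * Gc := by
    rw [hFa, hGc, C_sub, C_mul, C_mul]
    ring
  have e2 : C (a * e - b * c) * G = C a * Gc - C c * Fa := by
    rw [hFa, hGc, C_sub, C_mul, C_mul]
    ring
  have hcoFG : IsCoprime Fa Gc := by
    obtain ⟨x, y, hxy⟩ := i1
    refine ⟨C (a * e - b * c)⁻¹ * (x * C e - y * C c), C (a * e - b * c)⁻¹ * (y * C a - x * C b), ?_⟩
    have h1 : C (a * e - b * c)⁻¹ * C (a * e - b * c) = (1 : E[X]) := by
      rw [← C_mul, inv_mul_cancel₀ hdet, C_1]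
    calc _ = C (a * e - b * c)⁻¹ * (x * (C e * Fa - C b * Gc) + y * (C a * Gc - C c * Fa)) := by ring
      _ = C (a * e - b * c)⁻¹ * C (a * e - b * c) * (x * F + y * G) := by
          rw [← e1, ← e2]
          ring
      _ = 1 := by rw [h1, hxy, one_mul]
  -- the top coefficients
  have htop : (Fa.coeff D, Gc.coeff D) ≠ (0, 0) := by
    intro h0
    have h1 : Fa.coeff D = 0 := congrArg Prod.fst h0
    have h2 : Gc.coeff D = 0 := congrArg Prod.snd h0
    have h3 : F.coeff D = 0 := by
      have h4 := congrArg (fun A : E[X] => A.coeff D) e1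
      simp only [coeff_C_mul, coeff_sub, h1, h2, mul_zero, sub_zero] at h4
      exact (mul_eq_zero.1 h4).resolve_left hdet
    have h5 : G.coeff D = 0 := by
      have h4 := congrArg (fun A : E[X] => A.coeff D) e2
      simp only [coeff_C_mul, coeff_sub, h1, h2, mul_zero, sub_zero] at h4
      exact (mul_eq_zero.1 h4).resolve_left hdet
    have h6 : ∀ A : E[X], A.natDegree = D → A.coeff D = 0 → False := by
      intro A hA hA2
      rw [← hA, coeff_natDegree, leadingCoeff_eq_zero] at hA2
      rw [hA2, natDegree_zero] at hA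
      omega
    rcases max_choice F.natDegree G.natDegree with h7 | h7
    · exact h6 F (h7.symm.trans i3) h3
    · exact h6 G (h7.symm.trans i3) h5
  have hUd : Uh.natDegree ≤ D := by
    have := hc_degree D 1 (u.map (algebraMap k E)) _ _ (lin_deg a b) (lin_deg c e)
    rw [mul_one] at this
    rw [hUh]
    exact this
  have hWd : Wh.natDegree ≤ D := by
    have := hc_degree D 1 (w.map (algebraMap k E)) _ _ (lin_deg a b) (lin_deg c e)
    rw [mul_one] at this
    rw [hWh]
    exact this
  -- the evaluation of the forms at the vectors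
  have hUe : ∀ z, Uh.eval z = hev D (u.map (algebraMap k E)) (a * z + b, c * z + e) := by
    intro z
    rw [hUh, hc_eval]
    simp
  have hWe : ∀ z, Wh.eval z = hev D (w.map (algebraMap k E)) (a * z + b, c * z + e) := by
    intro z
    rw [hWh, hc_eval]
    simp
  have hUc : Uh.coeff D = hev D (u.map (algebraMap k E)) (a, c) := by
    have := hc_coeff D 1 (u.map (algebraMap k E)) _ _ (lin_deg a b) (lin_deg c e)
    rw [mul_one] at this
    rw [hUh, this]
    simp
  have hWc : Wh.coeff D = hev D (w.map (algebraMap k E)) (a, c) := by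
    have := hc_coeff D 1 (w.map (algebraMap k E)) _ _ (lin_deg a b) (lin_deg c e)
    rw [mul_one] at this
    rw [hWh, this]
    simp
  -- the factor
  obtain ⟨t, hUt, hWt⟩ : ∃ t : E[X], Uh = Fa * t ∧ Wh = Gc * t := by
    have h1 : Fa ∣ Gc * Uh := ⟨Wh, hrel.symm⟩
    obtain ⟨t, ht⟩ := hcoFG.dvd_of_dvd_mul_left h1
    by_cases hFa0 : Fa = 0
    · have hu1 : IsUnit Gc := by
        rw [hFa0, isCoprime_zero_left] at hcoFG
        exact hcoFG
      obtain ⟨G', hG'⟩ := hu1.exists_right_inv
      have h2 : Uh = 0 := by rw [ht, hFa0, zero_mul]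
      exact ⟨G' * Wh, by rw [h2, hFa0, zero_mul], by rw [← mul_assoc, hG', one_mul]⟩
    · refine ⟨t, ht, ?_⟩
      apply mul_left_cancel₀ hFa0
      rw [hrel, ht]
      ring
  have huw' : Uh ≠ 0 ∨ Wh ≠ 0 := by
    have key : ∀ g : k[X], g.natDegree ≤ D → (hc D (g.map (algebraMap k E)) (C a * X + C b)
        (C c * X + C e)) = 0 → g = 0 := by
      intro g hg h0
      by_contra hg0
      -- evaluate at infinitely many points
      have hinf : Infinite k := IsAlgClosed.instInfinite
      have h1 : ∀ s : k, (algebraMap k E s) * c - a ≠ 0 → g.eval s = 0 := by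
        intro s hs
        have h2 := congrArg (fun A : E[X] => A.eval ((b - algebraMap k E s * e) / (algebraMap k E s * c - a))) h0
        simp only [eval_zero] at h2
        rw [hc_eval] at h2
        have h3 : (C a * X + C b : E[X]).eval ((b - algebraMap k E s * e) / (algebraMap k E s * c - a)) =
            ((b * c - a * e) / (algebraMap k E s * c - a)) * algebraMap k E s := by
          simp only [eval_add, eval_mul, eval_C, eval_X]
          field_simp
          ring
        have h4 : (C c * X + C e : E[X]).eval ((b - algebraMap k E s * e) / (algebraMap k E s * c - a)) =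
            ((b * c - a * e) / (algebraMap k E s * c - a)) * 1 := by
          simp only [eval_add, eval_mul, eval_C, eval_X]
          rw [mul_one, mul_div_assoc', div_add' _ _ _ hs, div_left_inj' hs]
          ring
        have h5 : ((b * c - a * e) / (algebraMap k E s * c - a)) ≠ 0 := by
          refine div_ne_zero ?_ hs
          intro h6
          apply hdet
          linear_combination -h6
        have h6 := hev_smul D (g.map (algebraMap k E)) ((b * c - a * e) / (algebraMap k E s * c - a))
          (algebraMap k E s, 1)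
        rw [h3, h4] at h2
        have h7 : hev D (g.map (algebraMap k E)) (((b * c - a * e) / (algebraMap k E s * c - a)) •
          ((algebraMap k E s, 1) : E × E)) = 0 := h2
        rw [h6, hev_one _ _ (natDegree_map_le.trans hg)] at h7
        have h8 := (mul_eq_zero.1 h7).resolve_left (pow_ne_zero _ h5)
        rw [eval_map, eval₂_at_apply] at h8
        exact (map_eq_zero_iff _ (algebraMap k E).injective).1 h8
      -- at most one `s` is excluded
      have h2 : ∃ s₀ : Option k, ∀ s : k, s₀ ≠ some s → (algebraMap k E s) * c - a ≠ 0 := by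
        by_cases h3 : ∃ s₀ : k, (algebraMap k E s₀) * c - a = 0
        · obtain ⟨s₀, hs₀⟩ := h3
          refine ⟨some s₀, fun s hs h4 => hs ?_⟩
          have hc0 : c ≠ 0 := by
            rintro rfl
            rw [mul_zero, zero_sub, neg_eq_zero] at hs₀
            apply hdet
            rw [hs₀]
            ring
          have h5 : (algebraMap k E s) * c = (algebraMap k E s₀) * c := by linear_combination h4 - hs₀
          rw [(algebraMap k E).injective (mul_right_cancel₀ hc0 h5)]
        · push Not at h3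
          exact ⟨none, fun s _ => h3 s⟩
      obtain ⟨s₀, hs₀⟩ := h2
      have h3 : ∀ s : k, s₀ ≠ some s → g.eval s = 0 := fun s hs => h1 s (hs₀ s hs)
      apply hg0
      apply eq_zero_of_infinite_isRoot
      have h4 : ({s : k | s₀ = some s}).Finite := by
        cases s₀ with
        | none =>
          have : {s : k | (none : Option k) = some s} = ∅ := by
            ext s
            simp
          rw [this]
          exact Set.finite_empty
        | some s₁ =>
          have : {s : k | some s₁ = some s} = {s₁} := by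
            ext s
            simp [eq_comm]
          rw [this]
          exact Set.finite_singleton _
      refine (h4.infinite_compl).mono fun s hs => ?_
      exact h3 s hs
    rcases huw with h | h
    · left
      intro h0
      exact h (key u hu (by rw [← hUh]; exact h0))
    · right
      intro h0
      exact h (key w hw (by rw [← hWh]; exact h0))
  have ht0 : t ≠ 0 := by
    rintro rfl
    rw [mul_zero] at hUt hWt
    rcases huw' with h | h
    · exact h hUt
    · exact h hWt
  have htd : t.natDegree = 0 := by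
    have h1 : ∀ A B : E[X], B = A * t → B.natDegree ≤ D → A.coeff D ≠ 0 → t.natDegree = 0 := by
      intro A B hB hBd hA
      have hA0 : A ≠ 0 := by
        rintro rfl
        exact hA (coeff_zero _)
      have h2 : D ≤ A.natDegree := le_natDegree_of_ne_zero hA
      rw [hB, natDegree_mul hA0 ht0] at hBd
      omega
    by_cases h2 : Fa.coeff D = 0
    · have h3 : Gc.coeff D ≠ 0 := fun h3 => htop (Prod.ext h2 h3)
      exact h1 Gc Wh hWt hWd h3
    · exact h1 Fa Uh hUt hUd h2
  obtain ⟨t₀, rfl⟩ := natDegree_eq_zero.1 htd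
  have ht₀ : t₀ ≠ 0 := C_ne_zero.1 ht0
  -- no common zero
  have hNZ : NZ D u w := by
    intro s hs1 hs2
    by_contra hs
    have hm1 : ∀ g : k[X], hev D g s = 0 →
        hev D (g.map (algebraMap k E)) (algebraMap k E s.1, algebraMap k E s.2) = 0 := by
      intro g hg
      have h1 := congrArg (algebraMap k E) hg
      rw [map_zero] at h1
      rw [← h1]
      unfold hev
      rw [map_sum]
      refine Finset.sum_congr rfl fun i _ => ?_
      rw [coeff_map, map_mul, map_mul, map_pow, map_pow]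
    have hU0 := hm1 u hs1
    have hW0 := hm1 w hs2
    -- the preimage of the vector
    obtain ⟨z, hz⟩ : ∃ z, z = e * algebraMap k E s.1 - b * algebraMap k E s.2 := ⟨_, rfl⟩
    obtain ⟨y, hy⟩ : ∃ y, y = a * algebraMap k E s.2 - c * algebraMap k E s.1 := ⟨_, rfl⟩
    have h1 : (a * e - b * c) * algebraMap k E s.1 = a * z + b * y := by
      rw [hz, hy]
      ring
    have h2 : (a * e - b * c) * algebraMap k E s.2 = c * z + e * y := by
      rw [hz, hy]
      ring
    have hform : ∀ g : k[X], hev D (g.map (algebraMap k E)) (algebraMap k E s.1, algebraMap k E s.2) = 0 →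
        hev D (g.map (algebraMap k E)) (a * z + b * y, c * z + e * y) = 0 := by
      intro g hg
      have h3 : ((a * z + b * y, c * z + e * y) : E × E) =
          (a * e - b * c) • ((algebraMap k E s.1, algebraMap k E s.2) : E × E) := by
        rw [← h1, ← h2]
        rfl
      rw [h3, hev_smul, hg, mul_zero]
    by_cases hy0 : y = 0
    · have hz0 : z ≠ 0 := by
        intro hz0
        rw [hz0, hy0, mul_zero, mul_zero, add_zero] at h1 h2
        have h3 := (mul_eq_zero.1 h1).resolve_left hdet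
        have h4 := (mul_eq_zero.1 h2).resolve_left hdet
        exact hs (Prod.ext ((map_eq_zero_iff _ (algebraMap k E).injective).1 h3)
          ((map_eq_zero_iff _ (algebraMap k E).injective).1 h4))
      have h5 : ∀ g : k[X], hev D (g.map (algebraMap k E)) (a * z + b * y, c * z + e * y) = 0 →
          hev D (g.map (algebraMap k E)) (a, c) = 0 := by
        intro g hg
        have h3 : ((a * z + b * y, c * z + e * y) : E × E) = z • ((a, c) : E × E) := by
          rw [hy0]
          refine Prod.ext ?_ ?_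
          · change _ = z * a
            ring
          · change _ = z * c
            ring
        rw [h3, hev_smul] at hg
        exact (mul_eq_zero.1 hg).resolve_left (pow_ne_zero _ hz0)
      have h6 := h5 u (hform u hU0)
      have h7 := h5 w (hform w hW0)
      rw [← hUc, hUt, coeff_mul_C] at h6
      rw [← hWc, hWt, coeff_mul_C] at h7
      exact htop (Prod.ext ((mul_eq_zero.1 h6).resolve_right ht₀) ((mul_eq_zero.1 h7).resolve_right ht₀))
    · have h5 : ∀ g : k[X], hev D (g.map (algebraMap k E)) (a * z + b * y, c * z + e * y) = 0 →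
          hev D (g.map (algebraMap k E)) (a * (z / y) + b, c * (z / y) + e) = 0 := by
        intro g hg
        have h3 : ((a * z + b * y, c * z + e * y) : E × E) =
            y • ((a * (z / y) + b, c * (z / y) + e) : E × E) := by
          refine Prod.ext ?_ ?_
          · change _ = y * (a * (z / y) + b)
            field_simp
          · change _ = y * (c * (z / y) + e)
            field_simp
        rw [h3, hev_smul] at hg
        exact (mul_eq_zero.1 hg).resolve_left (pow_ne_zero _ hy0)
      have h6 := h5 u (hform u hU0)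
      have h7 := h5 w (hform w hW0)
      rw [← hUe, hUt, eval_mul, eval_C] at h6
      rw [← hWe, hWt, eval_mul, eval_C] at h7
      have h8 := (mul_eq_zero.1 h6).resolve_right ht₀
      have h9 := (mul_eq_zero.1 h7).resolve_right ht₀
      obtain ⟨x, x', hx⟩ := hcoFG
      have h10 := congrArg (fun A : E[X] => A.eval (z / y)) hx
      simp only [eval_add, eval_mul, h8, h9, mul_zero, add_zero, eval_one] at h10
      exact zero_ne_one h10
  -- the vectors of the points
  obtain ⟨vv, hvv⟩ : ∃ vv : E → E × E, vv = fun z => (a * z + b, c * z + e) := ⟨_, rfl⟩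
  have hv0 : ∀ z, vv z ≠ 0 := by
    intro z h0
    rw [hvv] at h0
    have h1 : a * z + b = 0 := congrArg Prod.fst h0
    have h2 : c * z + e = 0 := congrArg Prod.snd h0
    apply hdet
    linear_combination a * h2 - c * h1
  obtain ⟨fm, hfm⟩ : ∃ fm : E → E, fm = fun z => F.eval z / G.eval z := ⟨_, rfl⟩
  have hfmP : ∀ z ∈ P, fm z ∈ P := by
    intro z hz
    rw [hfm]
    exact (hPm z hz).2
  have hstep : ∀ z ∈ P, ∃ s : E, s ≠ 0 ∧ SE E D u w (vv z) = s • vv (fm z) := by
    intro z hz
    have hG0 := (hPm z hz).1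
    refine ⟨t₀ * G.eval z, mul_ne_zero ht₀ hG0, ?_⟩
    rw [hvv, hfm]
    unfold SE
    simp only
    rw [← hUe, ← hWe, hUt, hWt, hFa, hGc]
    refine Prod.ext ?_ ?_
    · change _ = t₀ * G.eval z * (a * (F.eval z / G.eval z) + b)
      simp only [eval_add, eval_mul, eval_C]
      field_simp
    · change _ = t₀ * G.eval z * (c * (F.eval z / G.eval z) + e)
      simp only [eval_add, eval_mul, eval_C]
      field_simp
  have hitP : ∀ (n : ℕ), ∀ z ∈ P, fm^[n] z ∈ P := by
    intro n
    induction n with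
    | zero => intro z hz; exact hz
    | succ n ih =>
      intro z hz
      rw [Function.iterate_succ_apply']
      exact hfmP _ (ih z hz)
  have hiter : ∀ (n : ℕ), ∀ z ∈ P, ∃ s : E, s ≠ 0 ∧ (SE E D u w)^[n] (vv z) = s • vv (fm^[n] z) := by
    intro n
    induction n with
    | zero => intro z _; exact ⟨1, one_ne_zero, by simp⟩
    | succ n ih =>
      intro z hz
      obtain ⟨s, hs, h1⟩ := ih z hz
      obtain ⟨s', hs', h2⟩ := hstep _ (hitP n z hz)
      refine ⟨s ^ D * s', mul_ne_zero (pow_ne_zero _ hs) hs', ?_⟩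
      rw [Function.iterate_succ_apply', Function.iterate_succ_apply', h1, SE_smul, h2, smul_smul]
  have hback : ∀ (n : ℕ), ∀ z ∈ P, KR k (vv (fm^[n] z)) → KR k (vv z) := by
    intro n
    induction n with
    | zero => intro z _ h; exact h
    | succ n ih =>
      intro z hz h
      rw [Function.iterate_succ_apply] at h
      have h1 := ih (fm z) (hfmP z hz) h
      obtain ⟨s, hs, h2⟩ := hstep z hz
      refine KR_back (by omega) hu hw hNZ (v := vv z) ?_
      rw [h2]
      obtain ⟨r, hr, h3⟩ := h1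
      refine ⟨r, hr, ?_⟩
      simp only [Prod.smul_fst, Prod.smul_snd, smul_eq_mul]
      linear_combination s * h3
  have hKR : ∀ z ∈ P, KR k (vv z) := by
    intro z hz
    -- the orbit is finite
    obtain ⟨i, j, hij, heq⟩ : ∃ i j : ℕ, i < j ∧ fm^[i] z = fm^[j] z := by
      have h1 : ¬ Function.Injective fun n : ℕ => (⟨fm^[n] z, hitP n z hz⟩ : P) := not_injective_infinite_finite _
      rw [Function.Injective] at h1
      push Not at h1
      obtain ⟨i, j, h2, h3⟩ := h1
      have h4 : fm^[i] z = fm^[j] z := congrArg Subtype.val h2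
      rcases lt_or_gt_of_ne h3 with h5 | h5
      · exact ⟨i, j, h5, h4⟩
      · exact ⟨j, i, h5, h4.symm⟩
    refine hback i z hz ?_
    obtain ⟨s, hs, h1⟩ := hiter (j - i) (fm^[i] z) (hitP i z hz)
    have h2 : fm^[j - i] (fm^[i] z) = fm^[i] z := by
      rw [← Function.iterate_add_apply, Nat.sub_add_cancel hij.le, ← heq]
    rw [h2] at h1
    exact KR_periodic hD2 hNZ (by omega) h1
  -- the cross ratios
  refine conj_of_cross p q d hp hq hd hco P hP P (Finset.Subset.refl _) ?_ ?_
  · intro x0 h0 x1 h1 x2 h2 x hx h01 h02 h12 hxx2 hxx0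
    obtain ⟨r0, l0, hl0, e0⟩ := (hKR x0 h0).exists_scalar (hv0 x0)
    obtain ⟨r1, l1, hl1, e1⟩ := (hKR x1 h1).exists_scalar (hv0 x1)
    obtain ⟨r2, l2, hl2, e2⟩ := (hKR x2 h2).exists_scalar (hv0 x2)
    obtain ⟨r, l, hl, ex⟩ := (hKR x hx).exists_scalar (hv0 x)
    have hdiff : ∀ (y y' : E) (s s' : k × k) (μ μ' : E), vv y = (μ * algebraMap k E s.1, μ * algebraMap k E s.2) →
        vv y' = (μ' * algebraMap k E s'.1, μ' * algebraMap k E s'.2) →
        (a * e - b * c) * (y - y') = μ * μ' * algebraMap k E (s.1 * s'.2 - s'.1 * s.2) := by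
      intro y y' s s' μ μ' hy hy'
      rw [hvv] at hy hy'
      have a1 : a * y + b = μ * algebraMap k E s.1 := congrArg Prod.fst hy
      have a2 : c * y + e = μ * algebraMap k E s.2 := congrArg Prod.snd hy
      have a3 : a * y' + b = μ' * algebraMap k E s'.1 := congrArg Prod.fst hy'
      have a4 : c * y' + e = μ' * algebraMap k E s'.2 := congrArg Prod.snd hy'
      rw [map_sub, map_mul, map_mul]
      have a5 : (a * e - b * c) * (y - y') = (a * y + b) * (c * y' + e) - (a * y' + b) * (c * y + e) := by ring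
      rw [a5, a1, a2, a3, a4]
      ring
    have d1 := hdiff x x0 r r0 l l0 ex e0
    have d2 := hdiff x1 x2 r1 r2 l1 l2 e1 e2
    have d3 := hdiff x x2 r r2 l l2 ex e2
    have d4 := hdiff x1 x0 r1 r0 l1 l0 e1 e0
    refine ⟨((r.1 * r0.2 - r0.1 * r.2) * (r1.1 * r2.2 - r2.1 * r1.2)) /
      ((r.1 * r2.2 - r2.1 * r.2) * (r1.1 * r0.2 - r0.1 * r1.2)), ?_⟩
    have n3 : algebraMap k E (r.1 * r2.2 - r2.1 * r.2) ≠ 0 := by
      intro h3
      rw [h3, mul_zero] at d3
      exact (mul_ne_zero hdet (sub_ne_zero.2 hxx2)) d3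
    have n4 : algebraMap k E (r1.1 * r0.2 - r0.1 * r1.2) ≠ 0 := by
      intro h3
      rw [h3, mul_zero] at d4
      exact (mul_ne_zero hdet (sub_ne_zero.2 h01.symm)) d4
    rw [map_div₀, map_mul, map_mul, div_eq_div_iff (mul_ne_zero n3 n4)
      (mul_ne_zero (sub_ne_zero.2 hxx2) (sub_ne_zero.2 h01.symm))]
    have hl4 : l * l0 * (l1 * l2) ≠ 0 := mul_ne_zero (mul_ne_zero hl hl0) (mul_ne_zero hl1 hl2)
    apply mul_left_cancel₀ hl4
    have b1 : l * l0 * (l1 * l2) * (algebraMap k E (r.1 * r0.2 - r0.1 * r.2) *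
        algebraMap k E (r1.1 * r2.2 - r2.1 * r1.2) * ((x - x2) * (x1 - x0))) =
        ((a * e - b * c) * (x - x0)) * ((a * e - b * c) * (x1 - x2)) * ((x - x2) * (x1 - x0)) := by
      rw [d1, d2]
      ring
    have b2 : l * l0 * (l1 * l2) * ((x - x0) * (x1 - x2) * (algebraMap k E (r.1 * r2.2 - r2.1 * r.2) *
        algebraMap k E (r1.1 * r0.2 - r0.1 * r1.2))) =
        ((a * e - b * c) * (x - x2)) * ((a * e - b * c) * (x1 - x0)) * ((x - x0) * (x1 - x2)) := by
      rw [d3, d4]
      ring
    rw [b1, b2]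
    ring
  · rw [Finset.sdiff_self, Finset.card_empty, mul_zero, zero_add]
    exact hcard

end Pool.Agent.Q210.SU.N7
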