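import Pool.Agent.Q210.SU.N4

/-!
# SU-N8: nondegeneracy
-/

set_option autoImplicit false
set_option linter.unusedVariables false
set_option linter.unusedSectionVars false

namespace Pool.Agent.Q210.SU.N8

open Finset Polynomial Pool.Agent.Q41.SU Pool.Agent.Q24.SU Pool.Agent.Q210.SU.N4
open Pool.Agent.W277.UH (ConjConst conj_of_const)

universe u

/-! ## Counting -/

theorem pairs {α : Type*} [DecidableEq α] (P : Finset α) (J : ℕ) (hJ : 1 ≤ J) (A : ℕ → Finset α)
    (hA : ∀ i < J, A i ⊆ P) (ε : ℝ) (hε : 4 ≤ J * ε) (hP : 0 < P.card)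
    (h : ∀ i < J, ε / 2 * P.card ≤ ((A i).card : ℝ)) :
    ∃ i j, i < j ∧ j < J ∧ (1 / (J : ℝ) ^ 2) * P.card < ((A i ∩ A j).card : ℝ) := by
  by_contra hcon
  push Not at hcon
  have hP' : (0 : ℝ) < P.card := by exact_mod_cast hP
  have hJ' : (0 : ℝ) < J := by exact_mod_cast hJ
  let χ : ℕ → α → ℝ := fun i x => if x ∈ A i then 1 else 0
  have h1 : ∀ i < J, ((A i).card : ℝ) = ∑ x ∈ P, χ i x := by
    intro i hi
    simp only [χ]
    rw [← Finset.sum_filter, Finset.sum_const, nsmul_eq_mul, mul_one]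
    congr 2
    ext x
    rw [mem_filter]
    exact ⟨fun h => ⟨hA i hi h, h⟩, fun h => h.2⟩
  have h2 : ∀ i < J, ∀ j < J, ((A i ∩ A j).card : ℝ) = ∑ x ∈ P, χ i x * χ j x := by
    intro i hi j hj
    simp only [χ]
    have h3 : ∀ x, (if x ∈ A i then (1 : ℝ) else 0) * (if x ∈ A j then 1 else 0) =
        if x ∈ A i ∩ A j then 1 else 0 := by
      intro x
      by_cases h4 : x ∈ A i <;> by_cases h5 : x ∈ A j <;> simp [h4, h5]
    simp only [h3]
    rw [← Finset.sum_filter, Finset.sum_const, nsmul_eq_mul, mul_one]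
    congr 2
    ext x
    rw [mem_filter, mem_inter]
    exact ⟨fun h => ⟨hA i hi h.1, h⟩, fun h => h.2⟩
  let m : α → ℝ := fun x => ∑ i ∈ range J, χ i x
  have s1 : ∑ i ∈ range J, ((A i).card : ℝ) = ∑ x ∈ P, m x := by
    rw [sum_comm]
    exact sum_congr rfl fun i hi => h1 i (mem_range.1 hi)
  have s2 : ∑ i ∈ range J, ∑ j ∈ range J, ((A i ∩ A j).card : ℝ) = ∑ x ∈ P, m x ^ 2 := by
    have h3 : ∀ x, m x ^ 2 = ∑ i ∈ range J, ∑ j ∈ range J, χ i x * χ j x := by
      intro x
      simp only [m]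
      rw [sq, Finset.sum_mul_sum]
    simp only [h3]
    rw [sum_comm (s := P)]
    refine sum_congr rfl fun i hi => ?_
    rw [sum_comm]
    exact sum_congr rfl fun j hj => h2 i (mem_range.1 hi) j (mem_range.1 hj)
  have s3 : 4 * ∑ x ∈ P, m x - 4 * P.card ≤ ∑ x ∈ P, m x ^ 2 := by
    rw [mul_sum, mul_comm (4 : ℝ) (P.card : ℝ), ← nsmul_eq_mul, ← sum_const, ← sum_sub_distrib]
    refine sum_le_sum fun x _ => ?_
    nlinarith [sq_nonneg (m x - 2)]
  have s4 : ∑ i ∈ range J, ∑ j ∈ range J, ((A i ∩ A j).card : ℝ) ≤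
      ∑ i ∈ range J, ((A i).card : ℝ) + P.card := by
    have h3 : ∀ i ∈ range J, ∑ j ∈ range J, ((A i ∩ A j).card : ℝ) ≤
        (A i).card + P.card / J := by
      intro i hi
      have h4 : ∀ j ∈ range J, ((A i ∩ A j).card : ℝ) ≤
          (if j = i then ((A i).card : ℝ) else 0) + (1 / (J : ℝ) ^ 2) * P.card := by
        intro j hj
        have h5 : 0 ≤ (1 / (J : ℝ) ^ 2) * P.card := by positivity
        rcases lt_trichotomy i j with h6 | h6 | h6
        · rw [if_neg (by omega), zero_add]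
          exact hcon i j h6 (mem_range.1 hj)
        · rw [if_pos h6.symm, h6, inter_self]
          linarith
        · rw [if_neg (by omega), zero_add, inter_comm]
          exact hcon j i h6 (mem_range.1 hi)
      refine (sum_le_sum h4).trans ?_
      rw [sum_add_distrib, sum_ite_eq' (range J) i, if_pos hi, sum_const, card_range, nsmul_eq_mul]
      have h7 : (J : ℝ) * (1 / (J : ℝ) ^ 2 * P.card) = P.card / J := by
        field_simp
      rw [h7]
    refine (sum_le_sum h3).trans ?_
    rw [sum_add_distrib, sum_const, card_range, nsmul_eq_mul, mul_div_cancel₀ _ hJ'.ne']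
  have s5 : 2 * (P.card : ℝ) ≤ ∑ i ∈ range J, ((A i).card : ℝ) := by
    have h3 : ∑ i ∈ range J, (ε / 2 * P.card) ≤ ∑ i ∈ range J, ((A i).card : ℝ) :=
      sum_le_sum fun i hi => h i (mem_range.1 hi)
    rw [sum_const, card_range, nsmul_eq_mul] at h3
    nlinarith
  rw [s2, s1] at s4
  rw [s1] at s5
  linarith

theorem pre {α : Type*} [DecidableEq α] (P : Finset α) (f : α → α) (hf : ∀ x ∈ P, f x ∈ P)
    (hS : {y : α | y ∈ P ∧ ∀ z ∈ P, f z ≠ y}.ncard ≤ 1) (n : ℕ) :
    ∀ A ⊆ P, A.card ≤ (P.filter fun x => f^[n] x ∈ A).card + n := by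
  induction n with
  | zero =>
    intro A hA
    have h1 : (P.filter fun x => f^[0] x ∈ A) = A := by
      ext x
      rw [mem_filter]
      exact ⟨fun h => h.2, fun h => ⟨hA h, h⟩⟩
    rw [h1, add_zero]
  | succ n ih =>
    intro A hA
    set A' := P.filter fun x => f^[n] x ∈ A with hA'
    have h1 := ih A hA
    rw [← hA'] at h1
    have h2 : (P.filter fun x => f^[n + 1] x ∈ A) = P.filter fun x => f x ∈ A' := by
      ext x
      rw [mem_filter, mem_filter, hA', mem_filter, Function.iterate_succ_apply]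
      exact ⟨fun h => ⟨h.1, hf x h.1, h.2⟩, fun h => ⟨h.1, h.2.2⟩⟩
    rw [h2]
    set M := P.filter fun y => ∀ z ∈ P, f z ≠ y with hM
    have h3 : M.card ≤ 1 := by
      have h4 : {y : α | y ∈ P ∧ ∀ z ∈ P, f z ≠ y} = (M : Set α) := by
        ext y
        simp [hM]
      rw [h4, Set.ncard_coe_finset] at hS
      exact hS
    have h5 : A' ⊆ ((P.filter fun x => f x ∈ A').image f) ∪ M := by
      intro y hy
      rw [mem_union, mem_image, hM, mem_filter]
      by_cases h6 : ∀ z ∈ P, f z ≠ y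
      · exact Or.inr ⟨(mem_filter.1 hy).1, h6⟩
      · left
        push Not at h6
        obtain ⟨z, hz, rfl⟩ := h6
        exact ⟨z, mem_filter.2 ⟨hz, hy⟩, rfl⟩
    have h6 := (card_le_card h5).trans (card_union_le _ _)
    have h7 : ((P.filter fun x => f x ∈ A').image f).card ≤ (P.filter fun x => f x ∈ A').card :=
      card_image_le
    omega

/-! ## The Riccati equation -/

section

variable {k E : Type u} [Field k] [Field E] [Algebra k E] (D : Derivation k E E)

theorem ric_poly {P Q : E[X]} (hco : IsCoprime P Q) (hQ : Q ≠ 0)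
    (hdeg : 1 ≤ max P.natDegree Q.natDegree) {R₁ R₂ ρ : E[X]} (hR₂ : R₂ ≠ 0)
    (hρ : ρ.natDegree ≤ 2) (h : R₁ = ρ * R₂) (hRic : Ric D P Q R₁ R₂) :
    hcm 2 ρ P Q = vd D P Q + wr P Q * ρ := by
  have hq : io E Q ≠ 0 := io_ne hQ
  have h1 : aeval (rf P Q) R₂ ≠ 0 := by
    intro h2
    have h3 := io_hcm (P := P) (H := R₂.natDegree) (A := R₂) le_rfl hQ
    rw [h2, mul_zero] at h3
    exact io_ne (hcm_ne le_rfl hR₂ hco hQ hdeg) h3
  have h2 : io E R₂ ≠ 0 := io_ne hR₂
  have h3 : aeval (rf P Q) ρ = rf (vd D P Q) (Q ^ 2) + rf (wr P Q) (Q ^ 2) * io E ρ := by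
    unfold Ric at hRic
    rw [h, map_mul, map_mul] at hRic
    refine mul_right_cancel₀ (mul_ne_zero h1 h2) ?_
    change aeval (rf P Q) ρ * aeval (rf P Q) R₂ * io E R₂ =
      (rf (vd D P Q) (Q ^ 2) * io E R₂ + rf (wr P Q) (Q ^ 2) * (io E ρ * io E R₂)) *
        aeval (rf P Q) R₂ at hRic
    linear_combination hRic
  have h4 : ∀ A : E[X], io E Q ^ 2 * rf A (Q ^ 2) = io E A := by
    intro A
    have h8 : rf A (Q ^ 2) = io E A / io E (Q ^ 2) := rfl
    rw [h8, map_pow]
    exact mul_div_cancel₀ _ (pow_ne_zero _ hq)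
  refine io_inj ?_
  rw [io_hcm hρ hQ, h3, mul_add, ← mul_assoc, h4, h4, map_add, map_mul]

theorem stab_quad {P Q : E[X]} {ρ : E[X]} (hρ : ρ.natDegree ≤ 2)
    (h : hcm 2 ρ P Q = vd D P Q + wr P Q * ρ) {x : E} (hx : Q.eval x ≠ 0)
    (hD : D x = ρ.eval x) : D (P.eval x / Q.eval x) = ρ.eval (P.eval x / Q.eval x) := by
  have h1 := D_quot D (P := P) (Q := Q) hx
  have h2 := hcm_eval (P := P) hρ hx
  rw [h, eval_add, eval_mul] at h2
  rw [hD] at h1
  refine mul_left_cancel₀ (pow_ne_zero 2 hx) ?_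
  rw [h1, ← h2]

theorem cross_const (hker : ∀ x, D x = 0 → ∃ c : k, x = algebraMap k E c) {α β γ : E}
    {x0 x1 x2 x : E} (h0 : D x0 = α * x0 ^ 2 + β * x0 + γ) (h1 : D x1 = α * x1 ^ 2 + β * x1 + γ)
    (h2 : D x2 = α * x2 ^ 2 + β * x2 + γ) (h : D x = α * x ^ 2 + β * x + γ) (hx : x ≠ x2)
    (h01 : x0 ≠ x1) : ∃ s : k, algebraMap k E s = ((x - x0) * (x1 - x2)) / ((x - x2) * (x1 - x0)) := by
  set M := (x - x2) * (x1 - x0) with hM
  set N := (x - x0) * (x1 - x2) with hN
  have hM0 : M ≠ 0 := mul_ne_zero (sub_ne_zero.2 hx) (sub_ne_zero.2 h01.symm)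
  have hDM : D M = M * (α * (x + x0 + x1 + x2) + 2 * β) := by
    rw [hM, D.leibniz, map_sub, map_sub, h, h2, h1, h0, smul_eq_mul, smul_eq_mul]
    ring
  have hDN : D N = N * (α * (x + x0 + x1 + x2) + 2 * β) := by
    rw [hN, D.leibniz, map_sub, map_sub, h, h2, h1, h0, smul_eq_mul, smul_eq_mul]
    ring
  have h3 : D (N / M * M) = D N := by rw [div_mul_cancel₀ _ hM0]
  rw [D.leibniz, smul_eq_mul, smul_eq_mul, hDM, hDN] at h3
  have h4 : M * D (N / M) = 0 := by
    have h5 : N / M * M = N := div_mul_cancel₀ _ hM0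
    linear_combination h3 - (α * (x + x0 + x1 + x2) + 2 * β) * h5
  obtain ⟨c, hc⟩ := hker _ ((mul_eq_zero.1 h4).resolve_left hM0)
  exact ⟨c, hc.symm⟩

theorem conj_quad [DecidableEq E] (hker : ∀ x, D x = 0 → ∃ c : k, x = algebraMap k E c)
    {P Q : E[X]} {m : ℕ} (hm : 1 ≤ m) (hco : IsCoprime P Q)
    (hdeg : max P.natDegree Q.natDegree = m) {α β γ : E} (S : Finset E)
    (hS : ∀ x ∈ S, D x = α * x ^ 2 + β * x + γ) (hst : Stab P Q S) (hcard : 3 * m + 3 ≤ S.card) :
    ConjConst k P Q m := by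
  have hPm : P.natDegree ≤ m := by rw [← hdeg]; exact le_max_left _ _
  have hQm : Q.natDegree ≤ m := by rw [← hdeg]; exact le_max_right _ _
  obtain ⟨x0, hx0, x1, hx1, x2, hx2, h01, h02, h12⟩ := Finset.two_lt_card.mp
    (show 2 < S.card by omega)
  refine conj_of_const P Q m hPm hQm x0 x1 x2 h01 h02 h12 (S.erase x2)
    ((S.erase x2).filter fun x => P.eval x / Q.eval x ∈ S.erase x2) ?_ ?_ ?_
  · intro x hx
    rw [mem_erase] at hx
    exact ⟨hx.1, cross_const D hker (hS x0 hx0) (hS x1 hx1) (hS x2 hx2) (hS x hx.2) hx.1 h01⟩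
  · intro x hx
    rw [mem_filter] at hx
    exact ⟨hx.1, (hst x (mem_erase.1 hx.1).2).1, hx.2⟩
  · have hne : P - C x2 * Q ≠ 0 := by
      intro h
      have h1 : P = C x2 * Q := sub_eq_zero.1 h
      have h2 : IsUnit Q := by
        rw [h1] at hco
        obtain ⟨a, b, hab⟩ := hco
        exact IsUnit.of_mul_eq_one (a * C x2 + b) (by linear_combination hab)
      have h3 := natDegree_eq_zero_of_isUnit h2
      have h4 : P.natDegree ≤ 0 := by
        rw [h1]
        exact (natDegree_C_mul_le _ _).trans h3.le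
      rw [h3, Nat.le_zero.1 h4] at hdeg
      simp at hdeg
      omega
    have hnd : (P - C x2 * Q).natDegree ≤ m :=
      (natDegree_sub_le _ _).trans (max_le hPm ((natDegree_C_mul_le _ _).trans hQm))
    set U := (S.erase x2).filter fun x => P.eval x / Q.eval x ∈ S.erase x2 with hU
    have h1 : S.erase x2 ⊆ U ∪ (P - C x2 * Q).roots.toFinset := by
      intro x hx
      rw [mem_union, hU, mem_filter, Multiset.mem_toFinset, mem_roots hne]
      have hxS := (mem_erase.1 hx).2
      obtain ⟨e1, e2⟩ := hst x hxS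
      by_cases h2 : P.eval x / Q.eval x = x2
      · right
        have h3 : P.eval x = x2 * Q.eval x := by rw [← h2, div_mul_cancel₀ _ e1]
        rw [IsRoot.def, eval_sub, eval_mul, eval_C, h3, sub_self]
      · left
        exact ⟨hx, mem_erase.2 ⟨h2, e2⟩⟩
    have h2 := (card_le_card h1).trans (card_union_le _ _)
    have h3 : (P - C x2 * Q).roots.toFinset.card ≤ m :=
      (Multiset.toFinset_card_le _).trans ((card_roots' _).trans hnd)
    rw [card_erase_of_mem hx2] at h2
    omega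

theorem card_zeros {F : Type*} [Field F] {g : F[X]} (hg : g ≠ 0) (S : Finset F)
    (h : ∀ x ∈ S, g.eval x = 0) : S.card ≤ g.natDegree := by
  by_contra hcon
  rw [not_le] at hcon
  exact hg (eq_zero_of_natDegree_lt_card_of_eval_eq_zero' g S h hcon)

/-- the last part: proportional pull-backs and many zeros -/
theorem last (hit : S_it.{u}) (hal : S_algr.{u}) (hinv : S_inv.{u}) (hric : S_ric.{u})
    (hiso : S_isoit.{u}) [CharZero E] [IsAlgClosed k] {d : ℕ} {p q : E[X]} {P : Finset E}
    (hN : NDH k D d p q P) {B H : ℕ} (hB : 1 ≤ B) {G : E[X][X]} (hG : G.natDegree ≤ B)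
    (hG0 : G.coeff B ≠ 0) (hGc : ∀ i, (G.coeff i).natDegree ≤ H) {i m : ℕ} (hm : 1 ≤ m)
    (heq : C ((pb D d p q B H (i + m) G).coeff B) * pb D d p q B H i G =
      C ((pb D d p q B H i G).coeff B) * pb D d p q B H (i + m) G)
    (hP : H * (2 * B + 2) + 1 ≤ P.card) (hP' : 3 * d + 4 ≤ P.card) (Z : Finset E) (hZP : Z ⊆ P)
    (hZ : ∀ x ∈ Z, G.evalEval x (D x) = 0) (hZc : H + 3 * d ^ m + 3 ≤ Z.card) : False := by
  classical
  obtain ⟨hker, hd, hp, hq, hco, hst, hS, hni⟩ := hN
  obtain ⟨m1, m2, m3, _, m5⟩ := hit E d p q (by omega) hp hq hco m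
  have hstm := (m5 P hst).1
  obtain ⟨hRic, T, hTd, hTi, hT0⟩ := hal k E D d p q (by omega) hp hq hco B H i m hB G hG hG0 hGc heq
  have hdm : 2 ≤ d ^ m := by
    calc 2 ≤ d := hd
      _ = d ^ 1 := (pow_one d).symm
      _ ≤ d ^ m := Nat.pow_le_pow_right (by omega) hm
  set R₁ : E[X] := -G.coeff (B - 1) with hR₁
  set R₂ : E[X] := C (B : E) * G.coeff B with hR₂
  have hR₂0 : R₂ ≠ 0 := mul_ne_zero (C_ne_zero.2 (Nat.cast_ne_zero.2 (by omega))) hG0
  have hR₂d : R₂.natDegree ≤ H := (natDegree_C_mul_le _ _).trans (hGc _)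
  by_cases hT : ∀ l, 1 ≤ l → l ≤ B → T l = 0
  · have h1 := hT0 hT
    obtain ⟨α, β, γ, hquad⟩ := hric k E D _ _ m1 m2 (by rw [m3]; exact hdm) R₁ R₂ hR₂0 hRic
    set ρ : E[X] := C α * X ^ 2 + C β * X + C γ with hρ
    have hρd : ρ.natDegree ≤ 2 := natDegree_quadratic_le
    have hρe : ∀ x, ρ.eval x = α * x ^ 2 + β * x + γ := by
      intro x
      rw [hρ]
      simp
    have hpoly := ric_poly D m1 m2 (by rw [m3]; omega) hR₂0 hρd hquad hRic
    set S := P.filter fun x => D x = ρ.eval x with hSd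
    have hSst : Stab (itr d p q m).1 (itr d p q m).2 S := by
      intro x hx
      rw [hSd, mem_filter] at hx
      obtain ⟨e1, e2⟩ := hstm x hx.1
      refine ⟨e1, ?_⟩
      rw [hSd, mem_filter]
      exact ⟨e2, stab_quad D hρd hpoly e1 hx.2⟩
    have hsub : Z ⊆ S ∪ (G.coeff B).roots.toFinset := by
      intro x hx
      rw [mem_union, Multiset.mem_toFinset, mem_roots hG0, IsRoot.def]
      by_cases h2 : (G.coeff B).eval x = 0
      · exact Or.inr h2
      · left
        rw [hSd, mem_filter]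
        refine ⟨hZP hx, ?_⟩
        have h3 := congrArg (fun F : E[X][X] => F.evalEval x (D x)) h1
        simp only [evalEval_mul, evalEval_pow, evalEval_sub, evalEval_C, evalEval_X] at h3
        rw [hZ x hx, mul_zero] at h3
        have h4 := eq_zero_of_pow_eq_zero ((mul_eq_zero.1 h3.symm).resolve_left h2)
        have h5 : R₂.eval x ≠ 0 := by
          rw [hR₂, eval_mul, eval_C]
          exact mul_ne_zero (Nat.cast_ne_zero.2 (by omega)) h2
        refine mul_left_cancel₀ h5 ?_
        have h6 : R₁.eval x = ρ.eval x * R₂.eval x := by rw [hquad, eval_mul]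
        rw [h6] at h4
        linear_combination h4
    have h2 := (card_le_card hsub).trans (card_union_le _ _)
    have h3 : (G.coeff B).roots.toFinset.card ≤ H :=
      (Multiset.toFinset_card_le _).trans ((card_roots' _).trans (hGc _))
    have hconj : ConjConst k (itr d p q m).1 (itr d p q m).2 (d ^ m) := by
      refine conj_quad D hker (by omega) m1 m3 S (α := α) (β := β) (γ := γ) ?_ hSst (by omega)
      intro x hx
      rw [hSd, mem_filter] at hx
      rw [hx.2, hρe]
    exact hni (hiso k E d m p q hd hm hp hq hco hconj P hst hP')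
  · push Not at hT
    obtain ⟨l, hl1, hl, hTl⟩ := hT
    have hne : T l * (G.coeff B * R₂ ^ l) ≠ 0 :=
      mul_ne_zero hTl (mul_ne_zero hG0 (pow_ne_zero _ hR₂0))
    have hdeg : (T l * (G.coeff B * R₂ ^ l)).natDegree ≤ H * (2 * B + 2) := by
      have e1 : (R₂ ^ l).natDegree ≤ l * H := natDegree_pow_le.trans (Nat.mul_le_mul_left _ hR₂d)
      refine (natDegree_mul_le.trans (Nat.add_le_add (hTd l) (natDegree_mul_le.trans
        (Nat.add_le_add (hGc B) e1)))).trans ?_
      calc H * (l + 1) + (H + l * H) = H * (2 * l + 2) := by ring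
        _ ≤ H * (2 * B + 2) := Nat.mul_le_mul_left _ (by omega)
    obtain ⟨x, hx, hxne⟩ : ∃ x ∈ P, (T l * (G.coeff B * R₂ ^ l)).eval x ≠ 0 := by
      by_contra hcon
      push Not at hcon
      have := card_zeros hne P hcon
      omega
    rw [eval_mul] at hxne
    exact hinv E _ _ m1 m2 (by rw [m3]; exact hdm) P hstm x hx l hl1 _ _
      (left_ne_zero_of_mul hxne) (right_ne_zero_of_mul hxne) (hTi l hl1 hl)

end

theorem t_nd (hit : S_it.{u}) (hpb : S_pb.{u}) (hal : S_algr.{u}) (hinv : S_inv.{u})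
    (hric : S_ric.{u}) (hiso : S_isoit.{u}) : S_nd.{u} := by
  classical
  intro d β
  induction β with
  | zero =>
    intro H ε hε
    refine ⟨⌈(H : ℝ) / ε⌉₊, ?_⟩
    intro k E _ _ _ _ _ D p q P hN hP G hG0 hG hGc
    have h1 : G = C (G.coeff 0) := eq_C_of_natDegree_le_zero hG
    have h2 : G.coeff 0 ≠ 0 := by
      intro h2
      rw [h2, map_zero] at h1
      exact hG0 h1
    have h3 : {x : E | x ∈ P ∧ G.evalEval x (D x) = 0} =
        ((P.filter fun x => G.evalEval x (D x) = 0 : Finset E) : Set E) := by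
      ext x
      simp
    rw [h3, Set.ncard_coe_finset]
    have h4 : (P.filter fun x => G.evalEval x (D x) = 0).card ≤ (G.coeff 0).natDegree := by
      refine card_zeros h2 _ fun x hx => ?_
      rw [mem_filter] at hx
      have h5 := hx.2
      rw [h1, evalEval_C] at h5
      exact h5
    have h5 : ((P.filter fun x => G.evalEval x (D x) = 0).card : ℝ) ≤ H := by
      exact_mod_cast h4.trans (hGc 0)
    have h6 : (H : ℝ) / ε ≤ P.card := (Nat.le_ceil _).trans (by exact_mod_cast hP)
    rw [div_le_iff₀ hε] at h6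
    linarith
  | succ β ih =>
    intro H ε hε
    set B := β + 1 with hB
    set J := ⌈4 / ε⌉₊ with hJ
    have hJ1 : 1 ≤ J := Nat.one_le_iff_ne_zero.2 (by
      rw [hJ, Ne, Nat.ceil_eq_zero, not_le]
      positivity)
    have hJe : 4 ≤ (J : ℝ) * ε := by
      rw [← div_le_iff₀ hε]
      exact Nat.le_ceil _
    have hJ' : (0 : ℝ) < J := by exact_mod_cast hJ1
    obtain ⟨N₁, h₁⟩ := ih (2 * ((H + 2 * B) * d ^ J)) (1 / (J : ℝ) ^ 2) (by positivity)
    obtain ⟨N₂, h₂⟩ := ih H ε hε
    refine ⟨N₁ + N₂ + ⌈2 * (J : ℝ) / ε⌉₊ + (H * (2 * B + 2) + 1) +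
      ⌈((H + 3 * d ^ J + 3 : ℕ) : ℝ) / ε⌉₊ + (3 * d + 4), ?_⟩
    intro k E _ _ _ _ _ D p q P hN hP G hGne hG hGc
    have hcz : CharZero E := charZero_of_injective_algebraMap (algebraMap k E).injective
    by_cases hG0 : G.coeff B = 0
    · refine h₂ k E D p q P hN (by omega) G hGne ?_ hGc
      rw [natDegree_le_iff_coeff_eq_zero]
      intro N hN
      rcases Nat.eq_or_lt_of_le (Nat.succ_le_of_lt hN) with h | h
      · rw [← h]
        exact hG0
      · exact coeff_eq_zero_of_natDegree_lt (by omega)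
    · by_contra hcon
      rw [not_le] at hcon
      have h3 : {x : E | x ∈ P ∧ G.evalEval x (D x) = 0} =
          ((P.filter fun x => G.evalEval x (D x) = 0 : Finset E) : Set E) := by
        ext x
        simp
      rw [h3, Set.ncard_coe_finset] at hcon
      set Z := P.filter fun x => G.evalEval x (D x) = 0 with hZd
      have hN' := hN
      obtain ⟨hker, hd, hp, hq, hco, hst, hS, hni⟩ := hN'
      have hd1 : 1 ≤ d := by omega
      set f : E → E := fun y => p.eval y / q.eval y with hf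
      have hfP : ∀ x ∈ P, f x ∈ P := fun x hx => (hst x hx).2
      let A : ℕ → Finset E := fun n => P.filter fun x =>
        (pb D d p q B H n G).evalEval x (D x) = 0
      have hAP : ∀ n, A n ⊆ P := fun n => filter_subset _ _
      have hpbn := fun n => hpb k E D d p q hd1 hp hq hco B H n G hG hGc
      have hcP : (2 * (J : ℝ) / ε) ≤ P.card := (Nat.le_ceil _).trans (Nat.cast_le.2 (by omega))
      have hcP' : (((H + 3 * d ^ J + 3 : ℕ) : ℝ) / ε) ≤ P.card :=
        (Nat.le_ceil _).trans (Nat.cast_le.2 (by omega))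
      rw [div_le_iff₀ hε] at hcP hcP'
      have hAc : ∀ n < J, ε / 2 * P.card ≤ ((A n).card : ℝ) := by
        intro n hn
        have e1 := pre P f hfP hS n Z (filter_subset _ _)
        have e2 : (P.filter fun x => f^[n] x ∈ Z) ⊆ A n := by
          intro x hx
          rw [mem_filter] at hx
          refine mem_filter.2 ⟨hx.1, ?_⟩
          rw [(hpbn n).2.2.2 P hst x hx.1, (mem_filter.1 hx.2).2, mul_zero]
        have e3 : (Z.card : ℝ) ≤ (A n).card + J := by
          exact_mod_cast e1.trans (Nat.add_le_add (card_le_card e2) hn.le)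
        linarith
      obtain ⟨i, j, hij, hjJ, hlt⟩ := pairs P J hJ1 A (fun n _ => hAP n) ε hJe (by omega) hAc
      obtain ⟨m, rfl⟩ : ∃ m, j = i + m := ⟨j - i, by omega⟩
      have hm : 1 ≤ m := by omega
      set F := C ((pb D d p q B H (i + m) G).coeff B) * pb D d p q B H i G -
        C ((pb D d p q B H i G).coeff B) * pb D d p q B H (i + m) G with hF
      have hF0 : F = 0 := by
        by_contra hFne
        have k1 : F.natDegree ≤ β := by
          rw [natDegree_le_iff_coeff_eq_zero]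
          intro N hN
          rw [hF, coeff_sub, coeff_C_mul, coeff_C_mul]
          rcases Nat.eq_or_lt_of_le (Nat.succ_le_of_lt hN) with h | h
          · rw [← h, Nat.succ_eq_add_one, ← hB]
            ring
          · have c0 : B < N := by omega
            have c1 : (pb D d p q B H i G).coeff N = 0 :=
              coeff_eq_zero_of_natDegree_lt (lt_of_le_of_lt (hpbn i).1 c0)
            have c2 : (pb D d p q B H (i + m) G).coeff N = 0 :=
              coeff_eq_zero_of_natDegree_lt (lt_of_le_of_lt (hpbn (i + m)).1 c0)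
            rw [c1, c2, mul_zero, mul_zero, sub_zero]
        have k0 : ∀ n ≤ i + m, ∀ r, ((pb D d p q B H n G).coeff r).natDegree ≤
            (H + 2 * B) * d ^ J := by
          intro n hn r
          exact ((hpbn n).2.1 r).trans (Nat.mul_le_mul_left _
            (Nat.pow_le_pow_right hd1 (by omega)))
        have k2 : ∀ r, (F.coeff r).natDegree ≤ 2 * ((H + 2 * B) * d ^ J) := by
          intro r
          rw [hF, coeff_sub, coeff_C_mul, coeff_C_mul, two_mul]
          refine (natDegree_sub_le _ _).trans (max_le ?_ ?_)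
          · exact natDegree_mul_le.trans (Nat.add_le_add (k0 _ le_rfl _) (k0 _ (by omega) _))
          · exact natDegree_mul_le.trans (Nat.add_le_add (k0 _ (by omega) _) (k0 _ le_rfl _))
        have k3 := h₁ k E D p q P hN (by omega) F hFne k1 k2
        have k4 : {x : E | x ∈ P ∧ F.evalEval x (D x) = 0} =
            ((P.filter fun x => F.evalEval x (D x) = 0 : Finset E) : Set E) := by
          ext x
          simp
        rw [k4, Set.ncard_coe_finset] at k3
        have k5 : A i ∩ A (i + m) ⊆ P.filter fun x => F.evalEval x (D x) = 0 := by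
          intro x hx
          rw [mem_inter] at hx
          obtain ⟨hx1, hx2⟩ := hx
          refine mem_filter.2 ⟨(mem_filter.1 hx1).1, ?_⟩
          rw [hF, evalEval_sub, evalEval_mul, evalEval_mul, (mem_filter.1 hx1).2,
            (mem_filter.1 hx2).2, mul_zero, mul_zero, sub_zero]
        have k6 : ((A i ∩ A (i + m)).card : ℝ) ≤ (P.filter fun x => F.evalEval x (D x) = 0).card := by
          exact_mod_cast card_le_card k5
        linarith
      have hcard : H + 3 * d ^ m + 3 ≤ Z.card := by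
        have e1 : ((H + 3 * d ^ J + 3 : ℕ) : ℝ) < Z.card := by linarith
        have e2 : H + 3 * d ^ J + 3 < Z.card := by exact_mod_cast e1
        have e3 : d ^ m ≤ d ^ J := Nat.pow_le_pow_right hd1 (by omega)
        omega
      exact last D hit hal hinv hric hiso hN (by omega) hG hG0 hGc hm (sub_eq_zero.1 hF0)
        (by omega) (by omega) Z (filter_subset _ _) (fun x hx => (mem_filter.1 hx).2) hcard

end Pool.Agent.Q210.SU.N8
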