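import Pool.Agent.Q41.SU.Stm5

set_option autoImplicit false

/-!
# Project SU, job N9: elimination
-/

namespace Pool.Agent.Q210.SU.N9

open Finset Polynomial
open Pool.Agent.Q41.SU
open Polynomial.Bivariate (swap)

universe u

/-! ## Degrees in both variables -/

section

variable {E : Type*} [Field E]

theorem swap_coeff (G : E[X][X]) (i j : ℕ) : ((swap G).coeff i).coeff j = (G.coeff j).coeff i := by
  induction G using Polynomial.induction_on' with
  | add p q hp hq => rw [map_add, coeff_add, coeff_add, coeff_add, coeff_add, hp, hq]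
  | monomial n p =>
    induction p using Polynomial.induction_on' with
    | add p q hp hq => rw [map_add, map_add, coeff_add, coeff_add, coeff_add, coeff_add, hp, hq]
    | monomial m r =>
      rw [Bivariate.swap_monomial_monomial, coeff_monomial, coeff_monomial]
      by_cases h1 : m = i <;> by_cases h2 : n = j
      · rw [if_pos h1, if_pos h2, coeff_monomial, coeff_monomial, if_pos h2, if_pos h1]
      · rw [if_pos h1, if_neg h2, coeff_monomial, if_neg h2, coeff_zero]
      · rw [if_neg h1, if_pos h2, coeff_monomial, if_neg h1, coeff_zero]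
      · rw [if_neg h1, if_neg h2, coeff_zero, coeff_zero]

theorem swap_deg_le {G : E[X][X]} {a : ℕ} :
    (swap G).natDegree ≤ a ↔ ∀ i, (G.coeff i).natDegree ≤ a := by
  constructor
  · intro h i
    rw [natDegree_le_iff_coeff_eq_zero]
    intro n hn
    rw [← swap_coeff, coeff_eq_zero_of_natDegree_lt (h.trans_lt hn), coeff_zero]
  · intro h
    rw [natDegree_le_iff_coeff_eq_zero]
    intro n hn
    ext j
    rw [swap_coeff, coeff_zero, coeff_eq_zero_of_natDegree_lt ((h j).trans_lt hn)]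

/-- the degrees are bounded -/
def Bd (β H : ℕ) (G : E[X][X]) : Prop := G.natDegree ≤ β ∧ (swap G).natDegree ≤ H

theorem Bd.mono {β H β' H' : ℕ} {G : E[X][X]} (h : Bd β H G) (h1 : β ≤ β') (h2 : H ≤ H') :
    Bd β' H' G := ⟨h.1.trans h1, h.2.trans h2⟩

theorem Bd.det {N β H : ℕ} {M : Matrix (Fin N) (Fin N) E[X][X]} (hM : ∀ i j, Bd β H (M i j)) :
    Bd (N * β) (N * H) M.det := by
  rw [Matrix.det_apply']
  constructor
  · refine natDegree_sum_le_of_forall_le _ _ fun σ _ => ?_
    refine natDegree_mul_le.trans ?_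
    have h1 : (((Equiv.Perm.sign σ : ℤ) : E[X][X])).natDegree = 0 := natDegree_intCast _
    rw [h1, zero_add]
    refine (natDegree_prod_le _ _).trans ?_
    refine (Finset.sum_le_sum fun i _ => (hM (σ i) i).1).trans ?_
    rw [Finset.sum_const, Finset.card_univ, Fintype.card_fin, smul_eq_mul]
  · rw [map_sum]
    refine natDegree_sum_le_of_forall_le _ _ fun σ _ => ?_
    rw [map_mul, map_intCast, map_prod]
    refine natDegree_mul_le.trans ?_
    have h1 : (((Equiv.Perm.sign σ : ℤ) : E[X][X])).natDegree = 0 := natDegree_intCast _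
    rw [h1, zero_add]
    refine (natDegree_prod_le _ _).trans ?_
    refine (Finset.sum_le_sum fun i _ => (hM (σ i) i).2).trans ?_
    rw [Finset.sum_const, Finset.card_univ, Fintype.card_fin, smul_eq_mul]

end

/-! ## The resultant -/

theorem res_ne_zero {R : Type*} [CommRing R] [IsDomain R] [DecompositionMonoid R[X]] {f g : R[X]}
    (hf : f ≠ 0) (h : IsRelPrime f g) : resultant f g ≠ 0 := by
  intro h0
  unfold resultant at h0
  obtain ⟨v, hv, hv0⟩ := Matrix.exists_mulVec_eq_zero_iff.2 h0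
  let b₁ := ((degreeLT.basis R f.natDegree).prod (degreeLT.basis R g.natDegree)).reindex finSumFinEquiv
  let b₂ := degreeLT.basis R (f.natDegree + g.natDegree)
  have hM : (sylvesterMap f g le_rfl le_rfl).toMatrix b₁ b₂ = sylvester f g f.natDegree g.natDegree :=
    toMatrix_sylvesterMap' f g le_rfl le_rfl
  let w := b₁.equivFun.symm v
  have hw : b₁.equivFun w = v := b₁.equivFun.apply_symm_apply v
  have h1 : sylvesterMap f g le_rfl le_rfl w = 0 := by
    apply b₂.equivFun.injective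
    rw [map_zero]
    have h2 := LinearMap.toMatrix_mulVec_repr b₁ b₂ (sylvesterMap f g le_rfl le_rfl) w
    rw [hM] at h2
    have h3 : (b₁.repr w : Fin (f.natDegree + g.natDegree) → R) = v := hw
    rw [h3, hv0] at h2
    exact h2.symm
  have h2 : f * (w.2 : R[X]) + g * (w.1 : R[X]) = 0 := congrArg Subtype.val h1
  have h3 : f ∣ g * (w.1 : R[X]) := ⟨-(w.2 : R[X]), by rw [mul_neg]; exact eq_neg_of_add_eq_zero_right h2⟩
  have h4 : f ∣ (w.1 : R[X]) := h.dvd_of_dvd_mul_left h3
  have h5 : (w.1 : R[X]) = 0 := by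
    refine eq_zero_of_dvd_of_degree_lt h4 ?_
    have h6 := mem_degreeLT.1 w.1.2
    rwa [degree_eq_natDegree hf]
  have h6 : (w.2 : R[X]) = 0 := by
    rw [h5, mul_zero, add_zero] at h2
    exact (mul_eq_zero.1 h2).resolve_left hf
  have h7 : w = 0 := Prod.ext (Subtype.ext h5) (Subtype.ext h6)
  apply hv
  rw [← hw, h7, map_zero]

/-! ## Removing the common factors -/

theorem extract {S : Type*} [CommRing S] [IsDomain S] [WfDvdMonoid S] (b : ℕ) (F : S) (hF : F ≠ 0) :
    ∀ c : ℕ → S, ∃ (d F₁ : S) (c' : ℕ → S), F = d * F₁ ∧ (∀ r ≤ b, c r = d * c' r) ∧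
      ∀ π : S, Irreducible π → π ∣ F₁ → ∃ r ≤ b, ¬ π ∣ c' r := by
  induction F using (wellFounded_dvdNotUnit (α := S)).induction with
  | _ F ih =>
    intro c
    by_cases h : ∀ π : S, Irreducible π → π ∣ F → ∃ r ≤ b, ¬ π ∣ c r
    · exact ⟨1, F, c, (one_mul _).symm, fun r _ => (one_mul _).symm, h⟩
    · push Not at h
      obtain ⟨π, hπ, ⟨F', hF'⟩, hc⟩ := h
      have hF'0 : F' ≠ 0 := by
        rintro rfl
        exact hF (by rw [hF', mul_zero])
      have h1 : DvdNotUnit F' F := ⟨hF'0, π, hπ.not_isUnit, by rw [hF', mul_comm]⟩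
      choose! c₁ hc₁ using hc
      obtain ⟨d, F₁, c', e1, e2, e3⟩ := ih F' h1 hF'0 c₁
      refine ⟨π * d, F₁, c', by rw [hF', e1, mul_assoc], fun r hr => ?_, e3⟩
      rw [hc₁ r hr, e2 r hr, mul_assoc]

/-! ## Three variables -/

section

variable {E : Type*} [Field E]

/-- the embedding of the polynomials in `(x, y)` into those in `(y, z, x)` -/
noncomputable def ψ : E[X][X] →+* E[X][X][X] := (mapRingHom C).comp ((swap : E[X][X] ≃ₐ[E] E[X][X]) : E[X][X] →+* E[X][X])

theorem ψ_apply (F : E[X][X]) : ψ F = (swap F).map C := rfl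

/-- the evaluation -/
noncomputable def ev3 (x y z : E) : E[X][X][X] →+* E :=
  (evalEvalRingHom y z).comp (evalRingHom (C (C x)))

theorem ev3_C (x y z : E) (ρ : E[X][X]) : ev3 x y z (C ρ) = ρ.evalEval y z := by
  change ((C ρ).eval (C (C x))).evalEval y z = _
  rw [eval_C]

theorem evalEval_swap' (x y : E) (F : E[X][X]) : (swap F).evalEval y x = F.evalEval x y := by
  have h1 := Bivariate.aevalAeval_swap (A := E) y x F
  rw [coe_aevalAeval_eq_evalEval, coe_aevalAeval_eq_evalEval] at h1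
  exact h1

theorem ev3_ψ (x y z : E) (F : E[X][X]) : ev3 x y z (ψ F) = F.evalEval x y := by
  rw [ψ_apply]
  change (((swap F).map C).eval (C (C x))).evalEval y z = _
  rw [← evalEval_swap' x y F]
  have h1 : ((swap F).map (C : E[X] →+* E[X][X])).eval (C (C x)) = C ((swap F).eval (C x)) := by
    rw [eval_map, eval₂_at_apply]
  rw [h1, evalEval_C]

/-- the general form -/
noncomputable def gg (b : ℕ) (c : ℕ → E[X][X]) : E[X][X][X] :=
  ∑ r ∈ range (b + 1), ψ (c r) * C (X ^ r)

theorem ev3_gg (x y z : E) (b : ℕ) (c : ℕ → E[X][X]) :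
    ev3 x y z (gg b c) = ∑ r ∈ range (b + 1), (c r).evalEval x y * z ^ r := by
  unfold gg
  rw [map_sum]
  refine Finset.sum_congr rfl fun r _ => ?_
  rw [map_mul, ev3_ψ, ev3_C, evalEval_pow, evalEval_X]

/-- the isomorphism -/
noncomputable def Φ : E[X][X][X] ≃+* E[X][X][X] :=
  (Polynomial.mapEquiv (swap : E[X][X] ≃ₐ[E] E[X][X]).toRingEquiv).trans
    (Bivariate.swap (R := E[X])).toRingEquiv

theorem Φ_C (F : E[X][X]) : Φ (C F) = ψ F := by
  change Bivariate.swap (R := E[X]) ((C F : E[X][X][X]).map _) = _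
  rw [map_C, Bivariate.swap_C]
  rfl

theorem Φ_X : Φ (X : E[X][X][X]) = C X := by
  change Bivariate.swap (R := E[X]) ((X : E[X][X][X]).map _) = _
  rw [map_X, Bivariate.swap_Y]

theorem relPrime {F₁ : E[X][X]} (hF₁ : F₁ ≠ 0) {b : ℕ} {c : ℕ → E[X][X]}
    (h : ∀ π : E[X][X], Irreducible π → π ∣ F₁ → ∃ r ≤ b, ¬ π ∣ c r) :
    IsRelPrime (ψ F₁) (gg b c) := by
  have h1 : IsRelPrime (C F₁ : E[X][X][X]) (∑ r ∈ range (b + 1), C (c r) * X ^ r) := by
    intro D hD1 hD2
    have hCF : (C F₁ : E[X][X][X]) ≠ 0 := C_ne_zero.2 hF₁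
    have hdeg : D.natDegree = 0 := by
      have h2 := natDegree_le_of_dvd hD1 hCF
      rw [natDegree_C] at h2
      omega
    obtain ⟨δ, rfl⟩ := natDegree_eq_zero.1 hdeg
    rw [C_dvd_iff_dvd_coeff] at hD1 hD2
    have h3 : δ ∣ F₁ := by
      have := hD1 0
      rwa [coeff_C_zero] at this
    have h4 : ∀ r ≤ b, δ ∣ c r := by
      intro r hr
      have h5 := hD2 r
      rw [finsetSum_coeff, Finset.sum_eq_single r] at h5
      · rwa [coeff_C_mul_X_pow, if_pos rfl] at h5
      · intro r' _ hr'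
        rw [coeff_C_mul_X_pow, if_neg hr'.symm]
      · intro h6
        exact absurd (mem_range.2 (by omega)) h6
    rw [isUnit_C]
    by_contra hu
    have hδ0 : δ ≠ 0 := by
      rintro rfl
      exact hF₁ (zero_dvd_iff.1 h3)
    obtain ⟨π, hπ, hπ2⟩ := WfDvdMonoid.exists_irreducible_factor hu hδ0
    obtain ⟨r, hr, hr2⟩ := h π hπ (hπ2.trans h3)
    exact hr2 (hπ2.trans (h4 r hr))
  have h2 : Φ (∑ r ∈ range (b + 1), C (c r) * X ^ r) = gg b c := by
    rw [map_sum]
    refine Finset.sum_congr rfl fun r _ => ?_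
    rw [map_mul, map_pow, Φ_C, Φ_X, C_pow]
  rw [← Φ_C, ← h2]
  intro D hD1 hD2
  have h3 : Φ.symm D ∣ C F₁ := by
    have := map_dvd Φ.symm hD1
    rwa [RingEquiv.symm_apply_apply] at this
  have h4 : Φ.symm D ∣ ∑ r ∈ range (b + 1), C (c r) * X ^ r := by
    have := map_dvd Φ.symm hD2
    rwa [RingEquiv.symm_apply_apply] at this
  have h5 := (h1 h3 h4).map Φ
  rwa [RingEquiv.apply_symm_apply] at h5

theorem swap_C_deg (t : E[X]) : (swap (C t)).natDegree ≤ t.natDegree := by
  rw [swap_deg_le]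
  intro i
  rw [coeff_C]
  split_ifs
  · exact le_rfl
  · rw [natDegree_zero]
    exact Nat.zero_le _

theorem bd_ψ {F : E[X][X]} {b : ℕ} (hF : F.natDegree ≤ b) (i : ℕ) : Bd 0 b ((ψ F).coeff i) := by
  rw [ψ_apply, coeff_map]
  refine ⟨by rw [natDegree_C], (swap_C_deg _).trans ?_⟩
  have h1 : (swap (swap F)).natDegree ≤ b := by
    rw [Bivariate.swap_swap_apply]
    exact hF
  exact swap_deg_le.1 h1 i

theorem bd_gg {b : ℕ} {c : ℕ → E[X][X]} (hc : ∀ r ≤ b, (c r).natDegree ≤ b) (i : ℕ) :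
    Bd b b ((gg b c).coeff i) := by
  unfold gg
  rw [finsetSum_coeff]
  constructor
  · refine natDegree_sum_le_of_forall_le _ _ fun r hr => ?_
    rw [coeff_mul_C]
    have h1 := (bd_ψ (hc r (Nat.lt_succ_iff.1 (mem_range.1 hr))) i).1
    refine natDegree_mul_le.trans ?_
    have h2 := natDegree_X_pow_le (R := E[X]) r
    have h3 := mem_range.1 hr
    omega
  · rw [map_sum]
    refine natDegree_sum_le_of_forall_le _ _ fun r hr => ?_
    rw [coeff_mul_C, map_mul, map_pow, Bivariate.swap_Y]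
    refine natDegree_mul_le.trans ?_
    have h1 := (bd_ψ (hc r (Nat.lt_succ_iff.1 (mem_range.1 hr))) i).2
    have h2 : ((C X : E[X][X]) ^ r).natDegree = 0 := by
      rw [← C_pow, natDegree_C]
    omega

theorem deg_ψ {F : E[X][X]} {a : ℕ} (hF : (swap F).natDegree ≤ a) : (ψ F).natDegree ≤ a := by
  rw [ψ_apply]
  exact natDegree_map_le.trans hF

theorem deg_gg {a b : ℕ} {c : ℕ → E[X][X]} (hc : ∀ r ≤ b, (swap (c r)).natDegree ≤ a) :
    (gg b c).natDegree ≤ a := by
  unfold gg
  refine natDegree_sum_le_of_forall_le _ _ fun r hr => ?_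
  refine (natDegree_mul_C_le _ _).trans ?_
  exact deg_ψ (hc r (Nat.lt_succ_iff.1 (mem_range.1 hr)))

theorem deg_factor {d G : E[X][X]} {a b : ℕ} (hd : d ≠ 0) (h1 : (d * G).natDegree ≤ b)
    (h2 : (swap (d * G)).natDegree ≤ a) : G.natDegree ≤ b ∧ (swap G).natDegree ≤ a := by
  by_cases hG : G = 0
  · subst hG
    rw [map_zero, natDegree_zero]
    exact ⟨Nat.zero_le _, Nat.zero_le _⟩
  · rw [natDegree_mul hd hG] at h1
    have hd' : swap d ≠ 0 := (map_ne_zero_iff _ (swap : E[X][X] ≃ₐ[E] E[X][X]).injective).2 hd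
    have hG' : swap G ≠ 0 := (map_ne_zero_iff _ (swap : E[X][X] ≃ₐ[E] E[X][X]).injective).2 hG
    rw [map_mul, natDegree_mul hd' hG'] at h2
    exact ⟨by omega, by omega⟩

end

theorem n9 : S_elim.{u} := by
  intro a b
  refine ⟨2 * a * b + b, 2 * a * b + b, ?_⟩
  intro E _ F c hF hFb hFa hcb hca
  obtain ⟨d, F₁, c', e1, e2, e3⟩ := extract b F hF c
  have hd : d ≠ 0 := by
    rintro rfl
    exact hF (by rw [e1, zero_mul])
  have hF₁ : F₁ ≠ 0 := by
    rintro rfl
    exact hF (by rw [e1, mul_zero])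
  obtain ⟨f1, f2⟩ := deg_factor (a := a) (b := b) hd (by rw [← e1]; exact hFb)
    (by rw [← e1]; exact swap_deg_le.2 hFa)
  have g12 : ∀ r ≤ b, (c' r).natDegree ≤ b ∧ (swap (c' r)).natDegree ≤ a := fun r hr =>
    deg_factor (a := a) (b := b) hd (by rw [← e2 r hr]; exact hcb r)
      (by rw [← e2 r hr]; exact swap_deg_le.2 (hca r))
  have hrel := relPrime hF₁ e3
  have hψ0 : ψ F₁ ≠ 0 := by
    rw [← Φ_C]
    exact (map_ne_zero_iff _ (Φ (E := E)).injective).2 (C_ne_zero.2 hF₁)
  have hpt : ∀ x y z : E, F.evalEval x y = 0 → (∃ r ≤ b, (c r).evalEval x y ≠ 0) →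
      ∑ r ∈ range (b + 1), (c r).evalEval x y * z ^ r = 0 →
      ev3 x y z (ψ F₁) = 0 ∧ ev3 x y z (gg b c') = 0 := by
    intro x y z h1 ⟨r, hr, hr2⟩ h3
    have hdx : d.evalEval x y ≠ 0 := by
      intro h4
      apply hr2
      rw [e2 r hr, evalEval_mul, h4, zero_mul]
    constructor
    · rw [e1, evalEval_mul] at h1
      rw [ev3_ψ]
      exact (mul_eq_zero.1 h1).resolve_left hdx
    · have h4 : ∑ r ∈ range (b + 1), (c r).evalEval x y * z ^ r =
          d.evalEval x y * ∑ r ∈ range (b + 1), (c' r).evalEval x y * z ^ r := by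
        rw [Finset.mul_sum]
        refine Finset.sum_congr rfl fun r hr => ?_
        rw [e2 r (Nat.lt_succ_iff.1 (mem_range.1 hr)), evalEval_mul, mul_assoc]
      rw [h4] at h3
      rw [ev3_gg]
      exact (mul_eq_zero.1 h3).resolve_left hdx
  by_cases hmn : (ψ F₁).natDegree ≠ 0 ∨ (gg b c').natDegree ≠ 0
  · obtain ⟨p, q, -, -, hpq⟩ := exists_mul_add_mul_eq_C_resultant (ψ F₁) (gg b c') le_rfl le_rfl hmn
    have hbd : Bd (2 * a * b) (2 * a * b) (resultant (ψ F₁) (gg b c')) := by
      unfold resultant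
      have h1 := Bd.det (M := sylvester (ψ F₁) (gg b c') (ψ F₁).natDegree (gg b c').natDegree)
        (β := b) (H := b) fun i j => by
          have h0 : Bd b b (0 : E[X][X]) := by
            refine ⟨by rw [natDegree_zero]; exact Nat.zero_le _, ?_⟩
            rw [map_zero, natDegree_zero]
            exact Nat.zero_le _
          unfold sylvester
          rw [Matrix.of_apply]
          refine Fin.addCases (fun j₁ => ?_) (fun j₁ => ?_) j
          · rw [Fin.addCases_left]
            split_ifs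
            · exact bd_gg (fun r hr => (g12 r hr).1) _
            · exact h0
          · rw [Fin.addCases_right]
            split_ifs
            · exact (bd_ψ f1 _).mono (Nat.zero_le _) le_rfl
            · exact h0
      have h2 : (ψ F₁).natDegree ≤ a := deg_ψ f2
      have h3 : (gg b c').natDegree ≤ a := deg_gg fun r hr => (g12 r hr).2
      have h4 : ((ψ F₁).natDegree + (gg b c').natDegree) * b ≤ 2 * a * b :=
        Nat.mul_le_mul_right _ (by omega)
      exact h1.mono h4 h4
    refine ⟨resultant (ψ F₁) (gg b c'), res_ne_zero hψ0 hrel, hbd.1.trans (Nat.le_add_right _ _),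
      swap_deg_le.1 (hbd.2.trans (Nat.le_add_right _ _)), fun x y z h1 h2 h3 => ?_⟩
    obtain ⟨h4, h5⟩ := hpt x y z h1 h2 h3
    rw [← ev3_C x y z, ← hpq, map_add, map_mul, map_mul, h4, h5, zero_mul, zero_mul, add_zero]
  · push Not at hmn
    obtain ⟨ρ, hρ⟩ := natDegree_eq_zero.1 hmn.1
    have hbd : Bd b b ρ := by
      have h1 := bd_ψ f1 0
      rw [← hρ, coeff_C_zero] at h1
      exact h1.mono (Nat.zero_le _) le_rfl
    refine ⟨ρ, ?_, hbd.1.trans (Nat.le_add_left _ _), swap_deg_le.1 (hbd.2.trans (Nat.le_add_left _ _)),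
      fun x y z h1 h2 h3 => ?_⟩
    · rintro rfl
      exact hψ0 (by rw [← hρ, C_0])
    · obtain ⟨h4, -⟩ := hpt x y z h1 h2 h3
      rw [← hρ, ev3_C] at h4
      exact h4

end Pool.Agent.Q210.SU.N9
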