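import Pool.Agent.Q41.SU.Stm5

set_option autoImplicit false

/-!
# Project SU, job N10: nondegeneracy with a parameter
-/

namespace Pool.Agent.Q210.SU.N10

open Finset Polynomial
open Pool.Agent.Q41.SU

universe u

/-- a polynomial in two variables -/
noncomputable def bp {E : Type*} [Field E] {a b : ℕ} (α : II a b → E) (m : II a b → ℕ) : E[X][X] :=
  ∑ i, C (C (α i) * X ^ (i.1 : ℕ)) * X ^ (m i)

section

variable {E : Type*} [Field E] {a b : ℕ}

theorem bp_deg (α : II a b → E) (m : II a b → ℕ) (hm : ∀ i, m i ≤ b) : (bp α m).natDegree ≤ b := by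
  refine natDegree_sum_le_of_forall_le _ _ fun i _ => ?_
  exact (natDegree_C_mul_X_pow_le _ _).trans (hm i)

theorem bp_coeff (α : II a b → E) (m : II a b → ℕ) (n : ℕ) :
    (bp α m).coeff n = ∑ i, if n = m i then C (α i) * X ^ (i.1 : ℕ) else 0 := by
  unfold bp
  rw [finsetSum_coeff]
  refine Finset.sum_congr rfl fun i _ => ?_
  rw [coeff_C_mul_X_pow]

theorem bp_cdeg (α : II a b → E) (m : II a b → ℕ) (n : ℕ) : ((bp α m).coeff n).natDegree ≤ a := by
  rw [bp_coeff]
  refine natDegree_sum_le_of_forall_le _ _ fun i _ => ?_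
  split_ifs
  · exact (natDegree_C_mul_X_pow_le _ _).trans (by omega)
  · rw [natDegree_zero]
    exact Nat.zero_le _

theorem bp_eval (α : II a b → E) (m : II a b → ℕ) (x y : E) :
    (bp α m).evalEval x y = ∑ i, α i * x ^ (i.1 : ℕ) * y ^ (m i) := by
  unfold bp evalEval
  rw [eval_finsetSum, eval_finsetSum]
  refine Finset.sum_congr rfl fun i _ => ?_
  simp

theorem bp_coeff2 (α : II a b → E) (i : II a b) :
    ((bp α fun i => (i.2 : ℕ)).coeff (i.2 : ℕ)).coeff (i.1 : ℕ) = α i := by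
  rw [bp_coeff, finsetSum_coeff, Finset.sum_eq_single i]
  · rw [if_pos rfl, coeff_C_mul_X_pow, if_pos rfl]
  · intro j _ hj
    by_cases h1 : (i.2 : ℕ) = (j.2 : ℕ)
    · rw [if_pos h1, coeff_C_mul_X_pow, if_neg]
      intro h2
      exact hj (Prod.ext (Fin.ext h2.symm) (Fin.ext h1.symm))
    · rw [if_neg h1, coeff_zero]
  · intro h
    exact absurd (mem_univ _) h

theorem add_pow_ext {R : Type*} [CommRing R] (x y : R) {n b : ℕ} (hn : n ≤ b) :
    (y + x) ^ n = ∑ r ∈ range (b + 1), x ^ r * (y ^ (n - r) * (n.choose r : R)) := by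
  rw [add_comm, add_pow]
  have h1 : range (n + 1) ⊆ range (b + 1) := fun r hr => by
    rw [mem_range] at hr ⊢
    omega
  rw [← Finset.sum_subset h1]
  · exact Finset.sum_congr rfl fun r _ => by ring
  · intro r _ hr
    rw [mem_range] at hr
    rw [Nat.choose_eq_zero_of_lt (by omega), Nat.cast_zero, mul_zero, mul_zero]

/-- the coefficient series -/
noncomputable def AA (c : II a b → PowerSeries E) (x y : E) (r : ℕ) : PowerSeries E :=
  ∑ i, c i * PowerSeries.C (x ^ (i.1 : ℕ) * (y ^ ((i.2 : ℕ) - r) * ((i.2 : ℕ).choose r : E)))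

theorem coeff_AA (c : II a b → PowerSeries E) (x y : E) (r n : ℕ) :
    PowerSeries.coeff n (AA c x y r) = ∑ i, PowerSeries.coeff n (c i) *
      (x ^ (i.1 : ℕ) * (y ^ ((i.2 : ℕ) - r) * ((i.2 : ℕ).choose r : E))) := by
  unfold AA
  rw [map_sum]
  exact Finset.sum_congr rfl fun i _ => PowerSeries.coeff_mul_C _ _ _

theorem sum_eq (c : II a b → PowerSeries E) (x y : E) (W : PowerSeries E) :
    ∑ i, c i * PowerSeries.C x ^ (i.1 : ℕ) * (PowerSeries.C y + PowerSeries.X * W) ^ (i.2 : ℕ) =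
      ∑ r ∈ range (b + 1), (PowerSeries.X * W) ^ r * AA c x y r := by
  have h1 : ∀ i : II a b, c i * PowerSeries.C x ^ (i.1 : ℕ) *
      (PowerSeries.C y + PowerSeries.X * W) ^ (i.2 : ℕ) =
      ∑ r ∈ range (b + 1), (PowerSeries.X * W) ^ r *
        (c i * PowerSeries.C (x ^ (i.1 : ℕ) * (y ^ ((i.2 : ℕ) - r) * ((i.2 : ℕ).choose r : E)))) := by
    intro i
    rw [add_pow_ext _ _ (Nat.lt_succ_iff.1 i.2.2), Finset.mul_sum]
    refine Finset.sum_congr rfl fun r _ => ?_
    simp only [map_mul, map_pow, map_natCast]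
    ring
  rw [Finset.sum_congr rfl fun i _ => h1 i, Finset.sum_comm]
  refine Finset.sum_congr rfl fun r _ => ?_
  rw [← Finset.mul_sum]
  rfl

theorem coeff_sum (c : II a b → PowerSeries E) (x y : E) (W : PowerSeries E) (ω : ℕ)
    (h : ∀ ω' < ω, ∀ r ≤ ω', PowerSeries.coeff (ω' - r) (AA c x y r) = 0) :
    PowerSeries.coeff ω (∑ r ∈ range (b + 1), (PowerSeries.X * W) ^ r * AA c x y r) =
      ∑ r ∈ range (b + 1), (if r ≤ ω then PowerSeries.coeff (ω - r) (AA c x y r) else 0) *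
        (PowerSeries.constantCoeff W) ^ r := by
  rw [map_sum]
  refine Finset.sum_congr rfl fun r _ => ?_
  rw [mul_pow, mul_assoc, PowerSeries.coeff_X_pow_mul']
  split_ifs with hr
  · obtain ⟨A', hA'⟩ : (PowerSeries.X : PowerSeries E) ^ (ω - r) ∣ AA c x y r := by
      rw [PowerSeries.X_pow_dvd_iff]
      intro m hm
      have h1 := h (m + r) (by omega) r (by omega)
      rwa [Nat.add_sub_cancel] at h1
    rw [hA']
    have h2 : W ^ r * (PowerSeries.X ^ (ω - r) * A') = PowerSeries.X ^ (ω - r) * (W ^ r * A') := by ring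
    rw [h2, PowerSeries.coeff_X_pow_mul', PowerSeries.coeff_X_pow_mul', if_pos le_rfl, if_pos le_rfl,
      Nat.sub_self, PowerSeries.coeff_zero_eq_constantCoeff_apply,
      PowerSeries.coeff_zero_eq_constantCoeff_apply, map_mul, map_pow]
    ring
  · rw [zero_mul]

/-- the coefficient of order zero -/
theorem exists_ne (c : II a b → PowerSeries E) (x y : E)
    (hx : ∃ n, (((bp (fun i => PowerSeries.constantCoeff (c i)) fun i => (i.2 : ℕ)) : E[X][X]).coeff n).eval
      x ≠ 0) : ∃ r ≤ b, PowerSeries.coeff 0 (AA c x y r) ≠ 0 := by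
  by_contra hcon
  push Not at hcon
  let f : E[X] := ∑ i : II a b, C (PowerSeries.constantCoeff (c i) * x ^ (i.1 : ℕ)) * X ^ (i.2 : ℕ)
  have h1 : taylor y f = 0 := by
    have h2 : taylor y f = ∑ i : II a b, C (PowerSeries.constantCoeff (c i) * x ^ (i.1 : ℕ)) *
        (C y + X) ^ (i.2 : ℕ) := by
      change taylor y (∑ i : II a b, C (PowerSeries.constantCoeff (c i) * x ^ (i.1 : ℕ)) *
        X ^ (i.2 : ℕ)) = _
      rw [map_sum]
      refine Finset.sum_congr rfl fun i _ => ?_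
      rw [taylor_apply, mul_comp, C_comp, X_pow_comp, add_comm (X : E[X]) (C y)]
    rw [h2]
    have h3 : ∀ i : II a b, C (PowerSeries.constantCoeff (c i) * x ^ (i.1 : ℕ)) *
        (C y + X) ^ (i.2 : ℕ) = ∑ r ∈ range (b + 1), X ^ r * C (PowerSeries.coeff 0 (c i) *
          (x ^ (i.1 : ℕ) * (y ^ ((i.2 : ℕ) - r) * ((i.2 : ℕ).choose r : E)))) := by
      intro i
      rw [add_pow_ext _ _ (Nat.lt_succ_iff.1 i.2.2), Finset.mul_sum]
      refine Finset.sum_congr rfl fun r _ => ?_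
      simp only [map_mul, map_pow, map_natCast, PowerSeries.coeff_zero_eq_constantCoeff_apply]
      ring
    rw [Finset.sum_congr rfl fun i _ => h3 i, Finset.sum_comm]
    refine Finset.sum_eq_zero fun r hr => ?_
    rw [← Finset.mul_sum, ← map_sum, ← coeff_AA, hcon r (by rw [mem_range] at hr; omega), C_0,
      mul_zero]
  have h2 : f = 0 := taylor_injective y (by rw [h1, map_zero])
  obtain ⟨n, hn⟩ := hx
  apply hn
  have h3 : ((bp (fun i => PowerSeries.constantCoeff (c i)) fun i => (i.2 : ℕ)).coeff n).eval x =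
      f.coeff n := by
    rw [bp_coeff, eval_finsetSum]
    change _ = (∑ i : II a b, C (PowerSeries.constantCoeff (c i) * x ^ (i.1 : ℕ)) * X ^ (i.2 : ℕ)).coeff n
    rw [finsetSum_coeff]
    refine Finset.sum_congr rfl fun i _ => ?_
    rw [coeff_C_mul_X_pow]
    split_ifs <;> simp
  rw [h3, h2, coeff_zero]

end

/-- the Taylor series -/
theorem tay_eq {k E : Type u} [Field k] [Field E] [CharZero E] [Algebra k E] (D : Derivation k E E) (y : E) :
    ∃ W : PowerSeries E, tay D y = PowerSeries.C y + PowerSeries.X * W ∧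
      PowerSeries.constantCoeff W = D y := by
  have h1 : PowerSeries.X ∣ tay D y - PowerSeries.C y := by
    rw [PowerSeries.X_dvd_iff, map_sub]
    unfold tay
    rw [← PowerSeries.coeff_zero_eq_constantCoeff_apply, PowerSeries.coeff_mk]
    simp
  obtain ⟨W, hW⟩ := h1
  refine ⟨W, by rw [← hW]; ring, ?_⟩
  have h2 := congrArg (PowerSeries.coeff 1) hW
  rw [map_sub, PowerSeries.coeff_succ_X_mul, PowerSeries.coeff_zero_eq_constantCoeff_apply] at h2
  rw [← h2]
  unfold tay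
  rw [PowerSeries.coeff_mk]
  have h3 : PowerSeries.coeff 1 (PowerSeries.C y) = 0 := by
    rw [PowerSeries.coeff_C, if_neg one_ne_zero]
  rw [h3]
  simp

/-- the polynomials of the elimination -/
noncomputable def cp {E : Type*} [Field E] {a b : ℕ} (c : II a b → PowerSeries E) (ω r : ℕ) : E[X][X] :=
  if r ≤ ω then bp (fun i => PowerSeries.coeff (ω - r) (c i) * ((i.2 : ℕ).choose r : E))
    (fun i => (i.2 : ℕ) - r) else 0

theorem cp_eval {E : Type*} [Field E] {a b : ℕ} (c : II a b → PowerSeries E) (ω r : ℕ) (x y : E) :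
    (cp c ω r).evalEval x y =
      if r ≤ ω then PowerSeries.coeff (ω - r) (AA c x y r) else 0 := by
  unfold cp
  split_ifs with h
  · rw [bp_eval, coeff_AA]
    refine Finset.sum_congr rfl fun i _ => ?_
    ring
  · exact evalEval_zero _ _

theorem n10 (h8 : S_nd.{u}) (h9 : S_elim.{u}) : S_nd2.{u} := by
  intro d a b ε hε
  obtain ⟨β', H', helim⟩ := h9 a b
  obtain ⟨N₁, hN₁⟩ := h8 d β' H' (ε / (2 * b + 2)) (by positivity)
  refine ⟨max N₁ ⌈2 * a / ε⌉₊, ?_⟩
  intro k E _ _ _ _ _ D p q P hH hcard h hD c hc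
  classical
  have _ : CharZero E := charZero_of_injective_algebraMap (algebraMap k E).injective
  obtain ⟨i₀, hi₀⟩ := hc
  set F : E[X][X] := bp (fun i => PowerSeries.constantCoeff (c i)) fun i => (i.2 : ℕ) with hF
  have hF0 : F.coeff (i₀.2 : ℕ) ≠ 0 := by
    intro h0
    have h1 := bp_coeff2 (fun i => PowerSeries.constantCoeff (c i)) i₀
    rw [← hF, h0, coeff_zero] at h1
    exact hi₀ h1.symm
  have hFne : F ≠ 0 := by
    intro h0
    rw [h0, coeff_zero] at hF0
    exact hF0 rfl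
  have hcpb : ∀ ω r, (cp c ω r).natDegree ≤ b := by
    intro ω r
    unfold cp
    split_ifs
    · exact bp_deg _ _ fun i => (Nat.sub_le _ _).trans (Nat.lt_succ_iff.1 i.2.2)
    · rw [natDegree_zero]
      exact Nat.zero_le _
  have hcpa : ∀ ω r i, ((cp c ω r).coeff i).natDegree ≤ a := by
    intro ω r i
    unfold cp
    split_ifs
    · exact bp_cdeg _ _ _
    · rw [coeff_zero, natDegree_zero]
      exact Nat.zero_le _
  have h1 : ∀ ω : ℕ, ∃ ρ : E[X][X], ρ ≠ 0 ∧ ρ.natDegree ≤ β' ∧ (∀ i, (ρ.coeff i).natDegree ≤ H') ∧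
      ∀ x y z : E, F.evalEval x y = 0 → (∃ r ≤ b, (cp c ω r).evalEval x y ≠ 0) →
        ∑ r ∈ range (b + 1), (cp c ω r).evalEval x y * z ^ r = 0 → ρ.evalEval y z = 0 :=
    fun ω => helim E F (cp c ω) hFne (bp_deg _ _ fun i => Nat.lt_succ_iff.1 i.2.2)
      (fun i => bp_cdeg _ _ _) (hcpb ω) (hcpa ω)
  choose ρ hρ0 hρb hρH hρ using h1
  -- pull back by `h`
  let g : E →+* E := ((h.symm : E ≃ₐ[k] E) : E →+* E)
  let G : ℕ → E[X][X] := fun ω => (ρ ω).map (mapRingHom g)
  have hgi : Function.Injective g := h.symm.injective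
  have hgi2 : Function.Injective (mapRingHom g) := map_injective g hgi
  have hG0 : ∀ ω, G ω ≠ 0 := by
    intro ω h0
    exact hρ0 ω ((Polynomial.map_eq_zero_iff hgi2).1 h0)
  have hGb : ∀ ω, (G ω).natDegree ≤ β' := fun ω => natDegree_map_le.trans (hρb ω)
  have hGH : ∀ ω i, ((G ω).coeff i).natDegree ≤ H' := by
    intro ω i
    change (((ρ ω).map (mapRingHom g)).coeff i).natDegree ≤ H'
    rw [coeff_map]
    exact natDegree_map_le.trans (hρH ω i)
  have hGe : ∀ ω x z, (G ω).evalEval (g x) (g z) = g ((ρ ω).evalEval x z) := by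
    intro ω x z
    have h2 := Polynomial.map_mapRingHom_evalEval g (ρ ω) x z
    exact h2
  have hbad : {x : E | x ∈ P ∧ (PowerSeries.X : PowerSeries E) ^ (b + 1) ∣
      ∑ i, c i * PowerSeries.C x ^ (i.1 : ℕ) * tay D (h x) ^ (i.2 : ℕ)} ⊆
      ((F.coeff (i₀.2 : ℕ)).roots.toFinset : Set E) ∪
        ⋃ ω ∈ Finset.Icc 1 b, {x : E | x ∈ P ∧ (G ω).evalEval x (D x) = 0} := by
    rintro x ⟨hxP, hxd⟩
    by_cases hx0 : (F.coeff (i₀.2 : ℕ)).eval x = 0
    · left
      rw [Finset.mem_coe, Multiset.mem_toFinset, mem_roots hF0]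
      exact hx0
    right
    obtain ⟨W, hW, hW0⟩ := tay_eq D (h x)
    rw [hW, sum_eq] at hxd
    obtain ⟨r₀, hr₀, hr₀2⟩ := exists_ne c x (h x) ⟨_, hx0⟩
    have hex : ∃ ω : ℕ, ∃ r ≤ ω, r ≤ b ∧ PowerSeries.coeff (ω - r) (AA c x (h x) r) ≠ 0 :=
      ⟨r₀, r₀, le_rfl, hr₀, by rw [Nat.sub_self]; exact hr₀2⟩
    obtain ⟨r₁, hr₁, hr₁b, hr₁2⟩ := Nat.find_spec hex
    have hmin := fun m' => Nat.find_min hex (m := m')
    have hle : Nat.find hex ≤ b := (Nat.find_le ⟨r₀, le_rfl, hr₀, by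
      rw [Nat.sub_self]; exact hr₀2⟩ : Nat.find hex ≤ r₀).trans hr₀
    generalize Nat.find hex = ω at hr₁ hr₁2 hmin hle
    have hlow : ∀ ω' < ω, ∀ r ≤ ω', PowerSeries.coeff (ω' - r) (AA c x (h x) r) = 0 := by
      intro ω' hω' r hr
      have h2 := hmin ω' hω'
      push Not at h2
      exact h2 r hr (by omega)
    have hsum := coeff_sum c x (h x) W ω hlow
    rw [PowerSeries.X_pow_dvd_iff] at hxd
    rw [hxd ω (by omega), hW0] at hsum
    have hω1 : 1 ≤ ω := by
      by_contra hcon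
      have hω0 : ω = 0 := by omega
      rw [hω0] at hr₁ hr₁2 hsum
      have hr0 : r₁ = 0 := by omega
      rw [hr0] at hr₁2
      apply hr₁2
      rw [Finset.sum_eq_single 0] at hsum
      · rw [if_pos le_rfl, pow_zero, mul_one] at hsum
        exact hsum.symm
      · intro r _ hr
        rw [if_neg (by omega), zero_mul]
      · intro h2
        exact absurd (mem_range.2 (by omega)) h2
    have hFx : F.evalEval x (h x) = 0 := by
      have h2 := hlow 0 (by omega) 0 le_rfl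
      rw [Nat.sub_self, coeff_AA] at h2
      rw [hF, bp_eval]
      rw [← h2]
      refine Finset.sum_congr rfl fun i _ => ?_
      rw [Nat.choose_zero_right, Nat.cast_one, mul_one, Nat.sub_zero,
        PowerSeries.coeff_zero_eq_constantCoeff_apply]
      ring
    have hρx := hρ ω x (h x) (D (h x)) hFx ⟨r₁, hr₁b, by rw [cp_eval, if_pos hr₁]; exact hr₁2⟩ (by
      rw [hsum]
      refine Finset.sum_congr rfl fun r _ => ?_
      rw [cp_eval])
    refine Set.mem_biUnion (x := ω) ?_ ?_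
    · rw [Finset.mem_coe, Finset.mem_Icc]
      exact ⟨hω1, hle⟩
    · refine ⟨hxP, ?_⟩
      have h2 := hGe ω (h x) (D (h x))
      rw [hρx, map_zero, hD x] at h2
      have h3 : g (h x) = x := h.symm_apply_apply x
      have h4 : g (h (D x)) = D x := h.symm_apply_apply (D x)
      rwa [h3, h4] at h2
  have hfin : ∀ ω, {x : E | x ∈ P ∧ (G ω).evalEval x (D x) = 0}.Finite := fun ω =>
    P.finite_toSet.subset fun x hx => hx.1
  have hN := hN₁ k E D p q P hH ((le_max_left _ _).trans hcard)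
  have hub : ({x : E | x ∈ P ∧ (PowerSeries.X : PowerSeries E) ^ (b + 1) ∣
      ∑ i, c i * PowerSeries.C x ^ (i.1 : ℕ) * tay D (h x) ^ (i.2 : ℕ)}.ncard : ℝ) ≤
      a + ∑ ω ∈ Finset.Icc 1 b, ({x : E | x ∈ P ∧ (G ω).evalEval x (D x) = 0}.ncard : ℝ) := by
    have h2 := Set.ncard_le_ncard hbad ((Finset.finite_toSet _).union
      (Set.Finite.biUnion (Finset.finite_toSet _) fun ω _ => hfin ω))
    have h3 : ((F.coeff (i₀.2 : ℕ)).roots.toFinset : Set E).ncard ≤ a := by
      rw [Set.ncard_coe_finset]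
      refine (Multiset.toFinset_card_le _).trans ((card_roots' _).trans ?_)
      exact bp_cdeg _ _ _
    have h4 : (⋃ ω ∈ Finset.Icc 1 b, {x : E | x ∈ P ∧ (G ω).evalEval x (D x) = 0}).ncard ≤
        ∑ ω ∈ Finset.Icc 1 b, {x : E | x ∈ P ∧ (G ω).evalEval x (D x) = 0}.ncard :=
      Finset.set_ncard_biUnion_le _ _
    have h5 := h2.trans ((Set.ncard_union_le _ _).trans (add_le_add h3 h4))
    exact_mod_cast h5
  refine hub.trans ?_
  have h6 : ∑ ω ∈ Finset.Icc 1 b, ({x : E | x ∈ P ∧ (G ω).evalEval x (D x) = 0}.ncard : ℝ) ≤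
      b * (ε / (2 * b + 2) * P.card) := by
    refine (Finset.sum_le_sum fun ω _ => hN (G ω) (hG0 ω) (hGb ω) (hGH ω)).trans ?_
    rw [Finset.sum_const, Nat.card_Icc, nsmul_eq_mul, Nat.add_sub_cancel]
  have h7 : (a : ℝ) ≤ ε / 2 * P.card := by
    have h8 : (2 * a / ε : ℝ) ≤ P.card :=
      (Nat.le_ceil _).trans (by exact_mod_cast (le_max_right _ _).trans hcard)
    rw [div_le_iff₀ hε] at h8
    linarith
  have h8 : (b : ℝ) * (ε / (2 * b + 2) * P.card) ≤ ε / 2 * P.card := by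
    have h9 : (b : ℝ) * (ε / (2 * b + 2)) ≤ ε / 2 := by
      rw [mul_div_assoc', div_le_div_iff₀ (by positivity) two_pos]
      nlinarith
    calc (b : ℝ) * (ε / (2 * b + 2) * P.card) = (b : ℝ) * (ε / (2 * b + 2)) * P.card := by ring
      _ ≤ ε / 2 * P.card := mul_le_mul_of_nonneg_right h9 (Nat.cast_nonneg _)
  linarith

end Pool.Agent.Q210.SU.N10
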